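import Pool.Agent.W5h16.RC.Inv

/-!
# Bounds for test functions and the best constant
-/

set_option autoImplicit false

open MeasureTheory Set Filter Topology Metric
open scoped InnerProductSpace ContDiff Laplacian ENNReal RealInnerProductSpace

namespace Pool.Agent.W5h16.RC

lemma pwb (α q : ℝ) (x : E 3) : ‖x‖ ^ (-beta 3 α q) = pw (-beta 3 α q / 2) x := by
  rw [pw_eq]; congr 1; ring

lemma absq_sup {φ : E 3 → ℝ} (h : Test φ) {q : ℝ} (hq : 0 < q) : Sup0 (fun x => |φ x| ^ q) :=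
  h.sup.mono (fun x hx => by rw [hx, abs_zero, Real.zero_rpow hq.ne'])

lemma absq_cont {φ : E 3 → ℝ} (h : Test φ) {q : ℝ} (hq : 0 < q) : Continuous (fun x => |φ x| ^ q) :=
  h.cont.abs.rpow_const (fun _ => Or.inr hq.le)

lemma massR_cont {φ : E 3 → ℝ} (h : Test φ) (α : ℝ) {q : ℝ} (hq : 0 < q) :
    Continuous (fun x => ‖x‖ ^ (-beta 3 α q) * |φ x| ^ q) := by
  simp_rw [pwb]
  have hc := absq_cont h hq
  rw [← contDiff_zero (𝕜 := ℝ)] at hc
  exact ((absq_sup h hq).contDiff_pw_mul _ hc).continuous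

lemma massR_sup {φ : E 3 → ℝ} (h : Test φ) (α : ℝ) {q : ℝ} (hq : 0 < q) :
    Sup0 (fun x => ‖x‖ ^ (-beta 3 α q) * |φ x| ^ q) :=
  (absq_sup h hq).mono (fun x hx => by rw [hx, mul_zero])

lemma massR_int {φ : E 3 → ℝ} (h : Test φ) (α : ℝ) {q : ℝ} (hq : 0 < q) :
    Integrable (fun x => ‖x‖ ^ (-beta 3 α q) * |φ x| ^ q) :=
  (massR_sup h α hq).integrable (massR_cont h α hq)

lemma massR_nonneg (α q : ℝ) (φ : E 3 → ℝ) : 0 ≤ massR α q φ :=
  integral_nonneg (fun x => by positivity)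

lemma intA_nonneg (α : ℝ) (φ : E 3 → ℝ) : 0 ≤ intA α φ :=
  integral_nonneg (fun x => mul_nonneg (pw_nonneg _ _) (sq_nonneg _))

/-- pointwise interpolation -/
lemma interp {α q Λ t : ℝ} (hq : 2 < q) {x : E 3} (hx : x ≠ 0)
    (hΛ : ‖x‖ ^ ((α - 1) / 2) * |t| ≤ Λ) :
    ‖x‖ ^ (-beta 3 α q) * |t| ^ q ≤ Λ ^ (q - 2) * (pw (α / 2 - 2) x * t ^ 2) := by
  have hp : 0 < ‖x‖ := norm_pos_iff.2 hx
  have hw : 0 ≤ pw (α / 2 - 2) x * t ^ 2 := mul_nonneg (pw_nonneg _ _) (sq_nonneg _)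
  have e : ‖x‖ ^ (-beta 3 α q) * |t| ^ q
      = (‖x‖ ^ ((α - 1) / 2) * |t|) ^ (q - 2) * (pw (α / 2 - 2) x * t ^ 2) := by
    by_cases ht : t = 0
    · subst ht
      rw [abs_zero, Real.zero_rpow (by linarith)]; simp
    · have ht' : 0 < |t| := abs_pos.2 ht
      rw [Real.mul_rpow (by positivity) ht'.le, ← Real.rpow_mul hp.le, pw_eq]
      have e1 : |t| ^ q = |t| ^ (q - 2) * t ^ 2 := by
        rw [← sq_abs t, ← Real.rpow_natCast |t| 2, ← Real.rpow_add ht']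
        congr 1; push_cast; ring
      have e2 : ‖x‖ ^ (-beta 3 α q) = ‖x‖ ^ ((α - 1) / 2 * (q - 2)) * ‖x‖ ^ (2 * (α / 2 - 2)) := by
        rw [← Real.rpow_add hp]; congr 1; unfold beta; push_cast; ring
      rw [e1, e2]; ring
  rw [e]
  apply mul_le_mul_of_nonneg_right _ hw
  exact Real.rpow_le_rpow (by positivity) hΛ (by linarith)

lemma massR_le {φ : E 3 → ℝ} (h : Test φ) {α q Λ : ℝ} (hq : 2 < q)
    (hΛ : ∀ a : E 3, a ≠ 0 → ‖a‖ ^ ((α - 1) / 2) * |φ a| ≤ Λ) :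
    massR α q φ ≤ Λ ^ (q - 2) * intA α φ := by
  unfold massR intA
  rw [← integral_const_mul]
  apply integral_mono_ae (massR_int h α (by linarith))
  · exact ((h.sup.mono (fun x hx => by rw [hx]; ring) : Sup0 (fun x => φ x ^ 2)).int
      (h.cont.pow 2) _).const_mul _
  · have h0 : ∀ᵐ y : E 3, y ≠ 0 := by rw [ae_iff]; simp
    filter_upwards [h0] with x hx
    exact interp hq hx (hΛ x hx)

/-- the constant in the Rellich inequality -/
noncomputable def RR (α : ℝ) : ℝ := (gam 3 α ^ 2)⁻¹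

lemma gam_pos {α : ℝ} (h1 : 1 < α) (h3 : α < 3) : 0 < gam 3 α := by
  unfold gam; push_cast
  have : 0 < (3 + α - 4) * (3 - α) := mul_pos (by linarith) (by linarith)
  linarith

lemma RR_pos {α : ℝ} (h1 : 1 < α) (h3 : α < 3) : 0 < RR α := by
  have := gam_pos h1 h3; unfold RR; positivity

lemma intA_le {α : ℝ} (h1 : 1 < α) (h3 : α < 3) {φ : E 3 → ℝ} (h : Test φ) :
    intA α φ ≤ RR α * energy α φ := by
  have hg := gam_pos h1 h3
  have := rellich h α hg.le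
  unfold RR
  rw [← div_eq_inv_mul, le_div_iff₀ (by positivity)]
  linarith

/-- `Λ` bounds the evaluations on the test functions with property `P` -/
def EvB (α Λ : ℝ) (P : (E 3 → ℝ) → Prop) : Prop :=
  ∀ φ : E 3 → ℝ, Test φ → P φ → ∀ a : E 3, a ≠ 0 →
    ‖a‖ ^ ((α - 1) / 2) * |φ a| ≤ Λ * Real.sqrt (energy α φ)

lemma evB_all {α : ℝ} (h1 : 1 < α) (h3 : α < 3) : EvB α ‖KL α e1‖ (fun _ => True) := by
  intro φ h _ a ha
  obtain ⟨ψ, hψ, he, -, hv, -⟩ := move h α 3 ha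
  have h2 := KL_inner h1 h3 e1_ne hψ
  have hp : 0 < ‖a‖ := norm_pos_iff.2 ha
  have h3' : ‖a‖ ^ ((α - 1) / 2) * |φ a| = |ψ e1| := by
    rw [hv, abs_mul, abs_of_nonneg (by positivity : 0 ≤ ‖a‖ ^ ((α - 1) / 2))]
  rw [h3', ← h2, ← he, ← TL_norm (by linarith) hψ, mul_comm]
  exact abs_real_inner_le_norm _ _

lemma massR_bound {α : ℝ} (h1 : 1 < α) (h3 : α < 3) {q Λ : ℝ} (hq : 2 < q) (hΛ0 : 0 ≤ Λ)
    {P : (E 3 → ℝ) → Prop} (hΛ : EvB α Λ P) {φ : E 3 → ℝ} (h : Test φ) (hP : P φ) :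
    massR α q φ ≤ Λ ^ (q - 2) * RR α * energy α φ ^ (q / 2) := by
  have hE := energy_nonneg α φ
  have h4 := massR_le h hq (hΛ φ h hP)
  rw [Real.mul_rpow hΛ0 (Real.sqrt_nonneg _)] at h4
  have e : Real.sqrt (energy α φ) ^ (q - 2) * energy α φ = energy α φ ^ (q / 2) := by
    rcases hE.eq_or_lt with h0 | h0
    · rw [← h0, mul_zero, Real.zero_rpow (by linarith)]
    · rw [Real.sqrt_eq_rpow, ← Real.rpow_mul h0.le]
      nth_rewrite 2 [← Real.rpow_one (energy α φ)]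
      rw [← Real.rpow_add h0]; congr 1; ring
  calc massR α q φ ≤ Λ ^ (q - 2) * Real.sqrt (energy α φ) ^ (q - 2) * intA α φ := h4
    _ ≤ Λ ^ (q - 2) * Real.sqrt (energy α φ) ^ (q - 2) * (RR α * energy α φ) := by
        apply mul_le_mul_of_nonneg_left (intA_le h1 h3 h) (by positivity)
    _ = Λ ^ (q - 2) * RR α * (Real.sqrt (energy α φ) ^ (q - 2) * energy α φ) := by ring
    _ = _ := by rw [e]

lemma energy_smul {φ : E 3 → ℝ} (h : Test φ) (α c : ℝ) :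
    energy α (fun x => c * φ x) = c ^ 2 * energy α φ := by
  unfold energy
  rw [← integral_const_mul]
  congr 1; ext x
  rw [lap_smul2 h.smooth]; ring

lemma massR_smul (φ : E 3 → ℝ) (α q c : ℝ) :
    massR α q (fun x => c * φ x) = |c| ^ q * massR α q φ := by
  unfold massR
  rw [← integral_const_mul]
  congr 1; ext x
  rw [abs_mul, Real.mul_rpow (abs_nonneg _) (abs_nonneg _)]; ring

/-- the best constant for test functions -/
noncomputable def MM (α q : ℝ) : ℝ :=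
  sSup {m | ∃ φ : E 3 → ℝ, Test φ ∧ energy α φ ≤ 1 ∧ m = massR α q φ}

lemma MM_bdd {α : ℝ} (h1 : 1 < α) (h3 : α < 3) {q : ℝ} (hq : 2 < q) :
    BddAbove {m | ∃ φ : E 3 → ℝ, Test φ ∧ energy α φ ≤ 1 ∧ m = massR α q φ} := by
  refine ⟨‖KL α e1‖ ^ (q - 2) * RR α, ?_⟩
  rintro m ⟨φ, h, hE, rfl⟩
  have h4 := massR_bound h1 h3 hq (norm_nonneg _) (evB_all h1 h3) h trivial
  have hR := RR_pos h1 h3
  refine h4.trans ?_
  have : energy α φ ^ (q / 2) ≤ 1 := Real.rpow_le_one (energy_nonneg _ _) hE (by linarith)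
  have h5 : 0 ≤ ‖KL α e1‖ ^ (q - 2) * RR α := by positivity
  nlinarith

lemma zero_test : Test (fun _ : E 3 => (0 : ℝ)) := by
  refine ⟨contDiff_const, HasCompactSupport.zero, ?_⟩
  rw [show (fun _ : E 3 => (0 : ℝ)) = 0 from rfl, tsupport_zero]
  exact notMem_empty _

lemma MM_nonneg (α q : ℝ) : 0 ≤ MM α q := by
  apply Real.sSup_nonneg
  rintro m ⟨φ, -, -, rfl⟩
  exact massR_nonneg _ _ _

theorem le_MM {α : ℝ} (h1 : 1 < α) (h3 : α < 3) {q : ℝ} (hq : 2 < q) {φ : E 3 → ℝ}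
    (h : Test φ) : massR α q φ ≤ MM α q * energy α φ ^ (q / 2) := by
  rcases (energy_nonneg α φ).eq_or_lt with h0 | h0
  · have h4 := massR_bound h1 h3 hq (norm_nonneg _) (evB_all h1 h3) h trivial
    rw [← h0, Real.zero_rpow (by linarith), mul_zero] at h4 ⊢
    exact h4
  · set e := energy α φ with he
    set c : ℝ := (Real.sqrt e)⁻¹ with hc
    have hc0 : 0 < c := by positivity
    have hE : energy α (fun x => c * φ x) ≤ 1 := by
      rw [energy_smul h, ← he, hc, inv_pow, Real.sq_sqrt h0.le, inv_mul_cancel₀ h0.ne']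
    have h5 := le_csSup (MM_bdd h1 h3 hq) ⟨_, h.smul c, hE, rfl⟩
    rw [massR_smul, abs_of_pos hc0] at h5
    have h6 : c ^ q * e ^ (q / 2) = 1 := by
      rw [hc, Real.sqrt_eq_rpow, ← Real.rpow_neg h0.le, ← Real.rpow_mul h0.le, ← Real.rpow_add h0]
      rw [show -(1 / 2) * q + q / 2 = 0 by ring, Real.rpow_zero]
    have h7 := mul_le_mul_of_nonneg_right h5 (by positivity : 0 ≤ e ^ (q / 2))
    calc massR α q φ = (c ^ q * e ^ (q / 2)) * massR α q φ := by rw [h6, one_mul]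
      _ = c ^ q * massR α q φ * e ^ (q / 2) := by ring
      _ ≤ _ := h7

/-- a test function with `ψ(e1) = 1` and `ψ(-e1) = 0` -/
lemma exists_bump : ∃ ψ : E 3 → ℝ, Test ψ ∧ ψ e1 = 1 ∧ ψ (-e1) = 0 := by
  let b : ContDiffBump e1 := ⟨1 / 4, 1 / 2, by norm_num, by norm_num⟩
  refine ⟨b, ⟨b.contDiff, b.hasCompactSupport, ?_⟩, ?_, ?_⟩
  · rw [b.tsupport_eq, mem_closedBall, dist_comm, dist_zero_right, e1_norm]
    norm_num
  · exact b.one_of_mem_closedBall (mem_closedBall_self (by norm_num))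
  · apply b.zero_of_le_dist
    change (1/2 : ℝ) ≤ dist (-e1) e1
    rw [dist_eq_norm, show -e1 - e1 = (-2 : ℝ) • e1 by rw [neg_smul, two_smul]; abel, norm_smul,
      e1_norm]
    norm_num

lemma MM_pos {α : ℝ} (h1 : 1 < α) (h3 : α < 3) {q : ℝ} (hq : 2 < q) : 0 < MM α q := by
  obtain ⟨ψ, hψ, hv, -⟩ := exists_bump
  have h4 := le_MM h1 h3 hq hψ
  have h5 : 0 < massR α q ψ := by
    apply (massR_cont hψ α (by linarith : 0 < q)).integral_pos_of_hasCompactSupport_nonneg_nonzero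
      (massR_sup hψ α (by linarith)).cpt (fun x => by positivity) (x := e1)
    rw [hv, e1_norm]; simp
  by_contra hM
  have : MM α q = 0 := le_antisymm (not_lt.1 hM) (MM_nonneg _ _)
  rw [this, zero_mul] at h4
  linarith

end Pool.Agent.W5h16.RC
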