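import Pool.Agent.W5h16.RC.Defs
import Pool.Agent.Helper486.TP.NewtonLap

/-!
# Calculus: weights, integration by parts, the Rellich inequality
-/

set_option autoImplicit false

open MeasureTheory Set Filter Topology Metric
open scoped InnerProductSpace ContDiff Laplacian ENNReal

namespace Pool.Agent.W5h16.RC

variable {n : ℕ}

/-- the standard basis vector -/
noncomputable def eb (i : Fin n) : E n := EuclideanSpace.basisFun (Fin n) ℝ i

/-- partial derivative -/
noncomputable def dd (i : Fin n) (f : E n → ℝ) (x : E n) : ℝ := fderiv ℝ f x (eb i)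

/-- weight `|x|^{2t}` -/
noncomputable def pw (t : ℝ) (x : E n) : ℝ := (‖x‖ ^ 2) ^ t

lemma pw_pos {t : ℝ} {x : E n} (hx : x ≠ 0) : 0 < pw t x := by
  unfold pw; have := norm_pos_iff.2 hx; positivity

lemma pw_nonneg (t : ℝ) (x : E n) : 0 ≤ pw t x := by unfold pw; positivity

lemma pw_add {s t : ℝ} {x : E n} (hx : x ≠ 0) : pw (s + t) x = pw s x * pw t x := by
  unfold pw; have := norm_pos_iff.2 hx; rw [Real.rpow_add (by positivity)]

lemma pw_one (x : E n) : pw 1 x = ‖x‖ ^ 2 := by unfold pw; rw [Real.rpow_one]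

lemma pw_eq {t : ℝ} (x : E n) : pw t x = ‖x‖ ^ (2 * t) := by
  unfold pw
  rw [Real.rpow_mul (norm_nonneg _)]
  norm_num

lemma hasFDerivAt_pw (t : ℝ) {x : E n} (hx : x ≠ 0) :
    HasFDerivAt (pw t) ((t * pw (t - 1) x) • (2 • (innerSL ℝ x))) x := by
  have h2 : HasFDerivAt (fun y : E n => ‖y‖ ^ 2) (2 • (innerSL ℝ x)) x := by
    have := (hasFDerivAt_id (𝕜 := ℝ) x).norm_sq
    simpa using this
  have hpos : 0 < ‖x‖ ^ 2 := by have := norm_pos_iff.2 hx; positivity
  exact h2.rpow_const (Or.inl hpos.ne')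

lemma dd_pw (t : ℝ) {x : E n} (hx : x ≠ 0) (i : Fin n) :
    dd i (pw t) x = 2 * t * pw (t - 1) x * x i := by
  unfold dd
  rw [(hasFDerivAt_pw t hx).fderiv]
  simp [eb, EuclideanSpace.inner_single_right]
  ring

lemma contDiffAt_pw (t : ℝ) {x : E n} (hx : x ≠ 0) {k : WithTop ℕ∞} : ContDiffAt ℝ k (pw t) x := by
  unfold pw
  apply ContDiffAt.rpow_const_of_ne
  · exact (contDiff_id.norm_sq ℝ).contDiffAt
  · have := norm_pos_iff.2 hx; positivity

/-- A function with compact support in the complement of the origin. -/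
structure Sup0 (g : E n → ℝ) : Prop where
  cpt : HasCompactSupport g
  zero : (0 : E n) ∉ tsupport g

lemma Sup0.ev {g : E n → ℝ} (h : Sup0 g) : g =ᶠ[𝓝 0] (fun _ => (0 : ℝ)) := by
  have : (tsupport g)ᶜ ∈ 𝓝 (0 : E n) := (isClosed_tsupport g).isOpen_compl.mem_nhds h.zero
  filter_upwards [this] with z hz
  exact image_eq_zero_of_notMem_tsupport hz

lemma Sup0.at0 {g : E n → ℝ} (h : Sup0 g) : g 0 = 0 := h.ev.self_of_nhds

lemma Sup0.mono {g h : E n → ℝ} (hg : Sup0 g) (hh : ∀ x, g x = 0 → h x = 0) : Sup0 h := by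
  have hs : tsupport h ⊆ tsupport g := closure_mono (fun x hx => by
    intro h0; exact hx (hh x h0))
  exact ⟨hg.cpt.mono' (fun x hx => subset_tsupport g (fun h0 => hx (hh x h0))), fun h0 => hg.zero (hs h0)⟩

lemma Sup0.dd {g : E n → ℝ} (h : Sup0 g) (i : Fin n) : Sup0 (dd i g) := by
  refine ⟨h.cpt.fderiv_apply (𝕜 := ℝ) _, fun h0 => h.zero ?_⟩
  have := tsupport_fderiv_apply_subset (f := g) ℝ (eb i)
  exact this h0

lemma Sup0.contDiff_pw_mul {g : E n → ℝ} (h : Sup0 g) (t : ℝ) {k : WithTop ℕ∞}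
    (hg : ContDiff ℝ k g) : ContDiff ℝ k (fun x => pw t x * g x) := by
  rw [contDiff_iff_contDiffAt]
  intro x
  by_cases hx : x = 0
  · subst hx
    have : (fun x => pw t x * g x) =ᶠ[𝓝 0] (fun _ => (0 : ℝ)) := by
      filter_upwards [h.ev] with y hy
      rw [hy, mul_zero]
    exact contDiffAt_const.congr_of_eventuallyEq this
  · exact (contDiffAt_pw t hx).mul hg.contDiffAt

lemma Sup0.pw_mul {g : E n → ℝ} (h : Sup0 g) (t : ℝ) : Sup0 (fun x => pw t x * g x) :=
  h.mono (fun x hx => by rw [hx, mul_zero])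

lemma Sup0.integrable {g : E n → ℝ} (h : Sup0 g) (hg : Continuous g) : Integrable g :=
  hg.integrable_of_hasCompactSupport h.cpt

lemma contDiff_dd {g : E n → ℝ} {k : WithTop ℕ∞} (hg : ContDiff ℝ (k + 1) g) (i : Fin n) :
    ContDiff ℝ k (dd i g) :=
  (hg.fderiv_right (m := k) le_rfl).clm_apply contDiff_const

lemma dd_mul {f g : E n → ℝ} {x : E n} (hf : DifferentiableAt ℝ f x) (hg : DifferentiableAt ℝ g x)
    (i : Fin n) : dd i (fun y => f y * g y) x = f x * dd i g x + dd i f x * g x := by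
  unfold dd
  have := (hf.hasFDerivAt.mul hg.hasFDerivAt).fderiv
  rw [show (fun y => f y * g y) = f * g from rfl, this]
  simp; ring

lemma Sup0.dd_pw_mul {g : E n → ℝ} (h : Sup0 g) (t : ℝ) (hg : Differentiable ℝ g) (i : Fin n)
    (x : E n) : RC.dd i (fun y => pw t y * g y) x
      = pw t x * RC.dd i g x + 2 * t * pw (t - 1) x * x i * g x := by
  by_cases hx : x = 0
  · subst hx
    have h1 := (h.pw_mul t).dd i
    have h2 := h.dd i
    rw [h1.at0, h2.at0, h.at0]; ring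
  · rw [dd_mul ((contDiffAt_pw t hx (k := 1)).differentiableAt (by norm_num)) (hg x), dd_pw t hx]

lemma ibp {f g : E n → ℝ} (hf : ContDiff ℝ 1 f) (hg : ContDiff ℝ 1 g)
    (hs : HasCompactSupport g) (i : Fin n) :
    ∫ x, f x * dd i g x = - ∫ x, dd i f x * g x :=
  Pool.Agent.Helper486.TP.int_parts f g hf hg hs _

lemma Test.sup {φ : E n → ℝ} (h : Test φ) : Sup0 φ := ⟨h.cpt, h.zero⟩

theorem lap_eq2 {φ : E n → ℝ} (hφ : ContDiff ℝ 2 φ) (y : E n) :
    (Δ φ) y = ∑ i, dd i (dd i φ) y := by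
  rw [InnerProductSpace.laplacian_eq_iteratedFDeriv_orthonormalBasis φ
    (EuclideanSpace.basisFun (Fin n) ℝ)]
  apply Finset.sum_congr rfl
  intro i _
  rw [iteratedFDeriv_two_apply]
  have h1 : DifferentiableAt ℝ (fderiv ℝ φ) y :=
    ((hφ.fderiv_right (m := 1) (by norm_cast)).differentiable (by norm_num)) y
  have h2 : fderiv ℝ (fun z => fderiv ℝ φ z (EuclideanSpace.basisFun (Fin n) ℝ i)) y
      = (ContinuousLinearMap.apply ℝ ℝ (EuclideanSpace.basisFun (Fin n) ℝ i)).comp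
        (fderiv ℝ (fderiv ℝ φ) y) := by
    have := (ContinuousLinearMap.apply ℝ ℝ (EuclideanSpace.basisFun (Fin n) ℝ i)).hasFDerivAt.comp y
      h1.hasFDerivAt
    exact this.fderiv
  unfold dd eb
  rw [h2]
  simp

lemma contDiff_dd1 {φ : E n → ℝ} (hφ : ContDiff ℝ 2 φ) (i : Fin n) : ContDiff ℝ 1 (dd i φ) :=
  contDiff_dd (k := 1) (by norm_num; exact hφ) i

lemma contDiff_dd0 {φ : E n → ℝ} (hφ : ContDiff ℝ 1 φ) (i : Fin n) : Continuous (dd i φ) :=
  (contDiff_dd (k := 0) (by norm_num; exact hφ) i).continuous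

lemma lap_cont2 {φ : E n → ℝ} (hφ : ContDiff ℝ 2 φ) : Continuous (Δ φ) := by
  have h : (Δ φ) = fun y => ∑ i, dd i (dd i φ) y := by ext y; exact lap_eq2 hφ y
  rw [h]
  exact continuous_finset_sum _ (fun i _ => contDiff_dd0 (contDiff_dd1 hφ i) i)

lemma lap_supp2 (φ : E n → ℝ) : ∀ y, y ∉ tsupport φ → (Δ φ) y = 0 := by
  intro y hy
  have h : φ =ᶠ[𝓝 y] (fun _ => (0 : ℝ)) := by
    have : (tsupport φ)ᶜ ∈ 𝓝 y := (isClosed_tsupport φ).isOpen_compl.mem_nhds hy
    filter_upwards [this] with z hz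
    exact image_eq_zero_of_notMem_tsupport hz
  have h2 := (InnerProductSpace.laplacian_congr_nhds h).eq_of_nhds
  rw [h2]
  simp

lemma Test.lapSup {φ : E n → ℝ} (h : Test φ) : Sup0 (Δ φ) := by
  have hs : tsupport (Δ φ) ⊆ tsupport φ := by
    apply closure_minimal _ (isClosed_tsupport φ)
    intro x hx
    by_contra h0
    exact hx (lap_supp2 φ x h0)
  exact ⟨HasCompactSupport.intro h.cpt (fun y hy => lap_supp2 φ y hy), fun h0 => h.zero (hs h0)⟩

end Pool.Agent.W5h16.RC
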