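import Mathlib

/-!
# The weighted biharmonic (Rellich-Sobolev) minimization problem: definitions

`E n = ℝⁿ`.  The space `𝒩²(α)` is the completion of `C²_c(ℝⁿ ∖ {0})` for the norm
`‖φ‖² = ∫ |x|^α |Δφ|²`; its elements are represented by functions, limits of Cauchy sequences of
test functions in `L^q(|x|^{-β} dx)`.
-/

set_option autoImplicit false

open MeasureTheory Set Filter Topology
open scoped Laplacian ContDiff ENNReal

namespace Pool.Agent.W5h16.RC

/-- The Euclidean space `ℝⁿ`. -/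
abbrev E (n : ℕ) : Type := EuclideanSpace ℝ (Fin n)

/-- The `C²` functions with compact support in `ℝⁿ ∖ {0}`. -/
structure Test {n : ℕ} (φ : E n → ℝ) : Prop where
  smooth : ContDiff ℝ 2 φ
  cpt : HasCompactSupport φ
  zero : (0 : E n) ∉ tsupport φ

/-- `‖φ‖²_{2,α} = ∫ |x|^α |Δφ|² dx` -/
noncomputable def energy {n : ℕ} (α : ℝ) (φ : E n → ℝ) : ℝ :=
  ∫ x, ‖x‖ ^ α * (Δ φ x) ^ 2

/-- The exponent `β = n - q (n - 4 + α) / 2`. -/
noncomputable def beta (n : ℕ) (α q : ℝ) : ℝ := n - q * (n - 4 + α) / 2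

/-- `∫ |x|^{-β} |u|^q dx`, a number in `[0, ∞]` -/
noncomputable def mass {n : ℕ} (α q : ℝ) (u : E n → ℝ) : ℝ≥0∞ :=
  ∫⁻ x, ENNReal.ofReal (‖x‖ ^ (-beta n α q) * |u x| ^ q)

/-- The function `u` represents an element of the completion `𝒩²(α)` whose norm has the square
`N`: there is a sequence of test functions which is a Cauchy sequence for the norm, whose norms
squared tend to `N`, and which tends to `u` in `L^q(|x|^{-β} dx)`. -/
structure Elt {n : ℕ} (α q : ℝ) (u : E n → ℝ) (N : ℝ) : Prop where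
  meas : AEStronglyMeasurable u volume
  ex : ∃ φ : ℕ → E n → ℝ, (∀ k, Test (φ k)) ∧
    (∀ ε : ℝ, 0 < ε → ∃ K, ∀ k ≥ K, ∀ l ≥ K, energy α (fun x => φ k x - φ l x) < ε) ∧
    Tendsto (fun k => energy α (φ k)) atTop (𝓝 N) ∧
    Tendsto (fun k => mass α q (fun x => φ k x - u x)) atTop (𝓝 0)

/-- The quotient `N / (∫ |x|^{-β} |u|^q)^{2/q}`. -/
noncomputable def quot {n : ℕ} (α q : ℝ) (u : E n → ℝ) (N : ℝ) : ℝ :=
  N / (mass α q u).toReal ^ (2 / q)

/-- `S_q(α)`, the infimum of the quotient over the nonzero elements of `𝒩²(α)`. -/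
noncomputable def SS (n : ℕ) (α q : ℝ) : ℝ :=
  sInf {t : ℝ | ∃ (u : E n → ℝ) (N : ℝ), Elt α q u N ∧ ¬ (u =ᵐ[volume] 0) ∧ t = quot α q u N}

/-- `u` is an extremal: a nonzero element of `𝒩²(α)` at which the infimum `S_q(α)` is attained. -/
def IsExtremal {n : ℕ} (α q : ℝ) (u : E n → ℝ) : Prop :=
  ∃ N : ℝ, Elt α q u N ∧ ¬ (u =ᵐ[volume] 0) ∧ quot α q u N = SS n α q

/-- `u(x)` depends only on `|x|` (up to a set of measure zero). -/
def IsRadial {n : ℕ} (u : E n → ℝ) : Prop :=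
  ∃ g : ℝ → ℝ, ∀ᵐ x : E n, u x = g ‖x‖

end Pool.Agent.W5h16.RC
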