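import Pool.Agent.W5h16.RC.Limit

/-!
# Even functions and the lower bound for the best constant
-/

set_option autoImplicit false

open MeasureTheory Set Filter Topology Metric
open scoped InnerProductSpace ContDiff Laplacian ENNReal RealInnerProductSpace

namespace Pool.Agent.W5h16.RC

/-- the function `x ↦ φ (-x)` -/
noncomputable def ng (φ : E 3 → ℝ) (x : E 3) : ℝ := φ (-x)

lemma ng_act (α : ℝ) (φ : E 3 → ℝ) : ng φ = act α 1 (LinearIsometryEquiv.neg ℝ) φ := by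
  ext x; simp [ng, act]

lemma ng_test {φ : E 3 → ℝ} (h : Test φ) : Test (ng φ) := by
  rw [ng_act 2]; exact act_test h 2 one_pos _

lemma ng_energy {φ : E 3 → ℝ} (h : Test φ) (α : ℝ) : energy α (ng φ) = energy α φ := by
  rw [ng_act α]; exact energy_act h α one_pos _

/-- the projection of the kernel to the closure of the space of test functions -/
lemma exists_proj {α : ℝ} (h1 : 1 < α) (h3 : α < 3) (hα : 0 < α) {a : E 3} (ha : a ≠ 0) :
    ∃ h ∈ (VV α hα).topologicalClosure, ∀ φ : E 3 → ℝ, Test φ → ⟪TL α φ, h⟫ = φ a := by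
  have hcomp : CompleteSpace (VV α hα).topologicalClosure :=
    ((VV α hα).isClosed_topologicalClosure.isComplete).completeSpace_coe
  obtain ⟨h, hh, hp⟩ : ∃ h ∈ (VV α hα).topologicalClosure,
      KL α a - h ∈ ((VV α hα).topologicalClosure)ᗮ :=
    ⟨_, Submodule.starProjection_apply_mem _ (KL α a), Submodule.sub_starProjection_mem_orthogonal _⟩
  refine ⟨h, hh, fun φ hφ => ?_⟩
  rw [Submodule.mem_orthogonal] at hp
  have h4 := hp _ ((VV α hα).le_topologicalClosure (TL_mem hα hφ))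
  rw [inner_sub_right, sub_eq_zero] at h4
  rw [← h4]; exact KL_inner h1 h3 ha hφ

/-- The two projected kernels at `e1` and `-e1`. -/
theorem kernels {α : ℝ} (h1 : 1 < α) (h3 : α < 3) (hα : 0 < α) :
    ∃ hp ∈ (VV α hα).topologicalClosure, ∃ hm : L2,
      (∀ φ : E 3 → ℝ, Test φ → ⟪TL α φ, hp⟫ = φ e1) ∧
      (∀ φ : E 3 → ℝ, Test φ → ⟪TL α φ, hm⟫ = φ (-e1)) ∧ ‖(1/2 : ℝ) • (hp + hm)‖ < ‖hp‖ := by
  obtain ⟨hp, hpm, hpe⟩ := exists_proj h1 h3 hα e1_ne
  obtain ⟨hm, hmm, hme⟩ := exists_proj h1 h3 hα (neg_ne_zero.2 e1_ne)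
  refine ⟨hp, hpm, hm, hpe, hme, ?_⟩
  -- the norm of `hm` is at most the norm of `hp`
  have hle : ‖hm‖ ≤ ‖hp‖ := by
    obtain ⟨φ, hφ, hlim⟩ := mem_closure_seq hmm
    have t1 : Tendsto (fun k => ⟪TL α (φ k), hm⟫) atTop (𝓝 ⟪hm, hm⟫) := strong_weak hlim hm
    have t2 : Tendsto (fun k => ‖TL α (φ k)‖ * ‖hp‖) atTop (𝓝 (‖hm‖ * ‖hp‖)) :=
      hlim.norm.mul_const _
    have h4 : ⟪hm, hm⟫ ≤ ‖hm‖ * ‖hp‖ := by
      refine le_of_tendsto_of_tendsto' t1 t2 (fun k => ?_)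
      rw [hme _ (hφ k)]
      have : φ k (-e1) = ng (φ k) e1 := rfl
      rw [this, ← hpe _ (ng_test (hφ k))]
      refine (real_inner_le_norm _ _).trans ?_
      rw [TL_norm hα (ng_test (hφ k)), TL_norm hα (hφ k), ng_energy (hφ k)]
    rw [real_inner_self_eq_norm_sq] at h4
    rcases (norm_nonneg hm).eq_or_lt with h0 | h0
    · rw [← h0]; exact norm_nonneg _
    · rw [sq] at h4
      exact le_of_mul_le_mul_left h4 h0
  have hne : hp ≠ hm := by
    intro h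
    obtain ⟨ψ, hψ, hv, hv2⟩ := exists_bump
    have e1 := hpe ψ hψ
    have e2 := hme ψ hψ
    rw [h, e2, hv2, hv] at e1
    exact zero_ne_one e1
  have hpar := parallelogram_law_with_norm ℝ hp hm
  have hd : 0 < ‖hp - hm‖ := norm_pos_iff.2 (sub_ne_zero.2 hne)
  have hs : ‖(1/2 : ℝ) • (hp + hm)‖ = ‖hp + hm‖ / 2 := by
    rw [norm_smul]; norm_num; ring
  rw [hs]
  by_contra hcon
  push Not at hcon
  have a1 : 0 ≤ ‖hp‖ := norm_nonneg _
  have a2 : 0 ≤ ‖hm‖ := norm_nonneg _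
  have a3 : 0 ≤ ‖hp + hm‖ := norm_nonneg _
  nlinarith [mul_pos hd hd, mul_nonneg a2 (sub_nonneg.2 hle), mul_nonneg a1 (sub_nonneg.2 hle),
    mul_nonneg (sub_nonneg.2 hcon) (add_nonneg a1 (by positivity : 0 ≤ ‖hp + hm‖ / 2))]

/-- The gap between the bound for even test functions and the bound for all test functions, which
is realized by a test function. -/
theorem gap {α : ℝ} (h1 : 1 < α) (h3 : α < 3) :
    ∃ K1 K' : ℝ, 0 < K1 ∧ K1 < K' ∧ EvB α K1 (fun φ => ∀ x, φ (-x) = φ x) ∧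
      ∃ ψ : E 3 → ℝ, Test ψ ∧ K' * ‖TL α ψ‖ < ψ e1 := by
  have hα : 0 < α := by linarith
  obtain ⟨hp, hpm, hm, hpe, hme, hlt⟩ := kernels h1 h3 hα
  set K0 := ‖hp‖ with hK0
  have hK0p : 0 < K0 := (norm_nonneg _).trans_lt hlt
  set k1 := ‖(1/2 : ℝ) • (hp + hm)‖ with hk1
  have hk1n : 0 ≤ k1 := norm_nonneg _
  refine ⟨(2 * k1 + K0) / 3, (k1 + 2 * K0) / 3, by positivity, by linarith, ?_, ?_⟩
  · intro φ h he a ha
    obtain ⟨ψ, hψ, hE, -, hv, hev⟩ := move h α 3 ha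
    have h5 : ψ e1 = ⟪TL α ψ, (1/2 : ℝ) • (hp + hm)⟫ := by
      rw [inner_smul_right, inner_add_right, hpe ψ hψ, hme ψ hψ, hev he]; ring
    have hp' : 0 < ‖a‖ := norm_pos_iff.2 ha
    have h3' : ‖a‖ ^ ((α - 1) / 2) * |φ a| = |ψ e1| := by
      rw [hv, abs_mul, abs_of_nonneg (by positivity : 0 ≤ ‖a‖ ^ ((α - 1) / 2))]
    rw [h3', h5, ← hE, ← TL_norm hα hψ]
    refine (abs_real_inner_le_norm _ _).trans ?_
    rw [mul_comm]
    apply mul_le_mul_of_nonneg_right _ (norm_nonneg _)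
    linarith
  · obtain ⟨φ, hφ, hlim⟩ := mem_closure_seq hpm
    have t1 : Tendsto (fun k => φ k e1) atTop (𝓝 (K0 ^ 2)) := by
      have := strong_weak hlim hp
      rw [real_inner_self_eq_norm_sq] at this
      refine this.congr (fun k => hpe _ (hφ k))
    have t2 : Tendsto (fun k => (k1 + 2 * K0) / 3 * ‖TL α (φ k)‖) atTop
        (𝓝 ((k1 + 2 * K0) / 3 * K0)) := hlim.norm.const_mul _
    have h6 : (k1 + 2 * K0) / 3 * K0 < K0 ^ 2 := by nlinarith
    obtain ⟨k, hk⟩ := (t2.eventually_lt t1 h6).exists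
    exact ⟨φ k, hφ k, hk⟩

/-- The lower bound `v₀ K'^q` for the best constant. -/
theorem MM_lower {α K' : ℝ} (h1 : 1 < α) (h3 : α < 3) (hK' : 0 < K') {ψ : E 3 → ℝ} (hψ : Test ψ)
    (hv : K' * ‖TL α ψ‖ < ψ e1) : ∃ v0 : ℝ, 0 < v0 ∧ ∀ q : ℝ, 2 < q → v0 * K' ^ q ≤ MM α q := by
  have hα : 0 < α := by linarith
  have hT : 0 < ‖TL α ψ‖ := by
    rcases (norm_nonneg (TL α ψ)).eq_or_lt with h0 | h0
    · exfalso
      have h4 : ψ e1 ≤ ‖TL α ψ‖ * ‖KL α e1‖ := by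
        rw [← KL_inner h1 h3 e1_ne hψ]; exact real_inner_le_norm _ _
      rw [← h0, zero_mul] at h4
      rw [← h0, mul_zero] at hv
      linarith
    · exact h0
  -- continuity
  have hcont : ContinuousAt (fun x : E 3 => ‖x‖ ^ ((α - 1) / 2) * |ψ x|) e1 := by
    apply ContinuousAt.mul
    · apply ContinuousAt.rpow_const continuous_norm.continuousAt
      left; rw [e1_norm]; exact one_ne_zero
    · exact hψ.cont.abs.continuousAt
  have hval : K' * ‖TL α ψ‖ < (fun x : E 3 => ‖x‖ ^ ((α - 1) / 2) * |ψ x|) e1 := by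
    simp only [e1_norm, Real.one_rpow, one_mul]
    exact hv.trans_le (le_abs_self _)
  have hev := hcont.eventually (lt_mem_nhds hval)
  obtain ⟨r, hr, hball⟩ := Metric.eventually_nhds_iff_ball.1 hev
  set s := min r (1/2) with hs
  have hs0 : 0 < s := by positivity
  have hvol : 0 < (volume (ball e1 s)).toReal :=
    ENNReal.toReal_pos (measure_ball_pos volume _ hs0).ne' measure_ball_lt_top.ne
  refine ⟨(volume (ball e1 s)).toReal * (3/2 : ℝ) ^ (-3 : ℝ), by positivity, fun q hq => ?_⟩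
  have hq0 : 0 < q := by linarith
  have hKT : 0 < K' * ‖TL α ψ‖ := by positivity
  have hpt : ∀ x ∈ ball e1 s, (3/2 : ℝ) ^ (-3 : ℝ) * (K' * ‖TL α ψ‖) ^ q
      ≤ ‖x‖ ^ (-beta 3 α q) * |ψ x| ^ q := by
    intro x hx
    have hx' : x ∈ ball e1 r := ball_subset_ball (min_le_left _ _) hx
    have h5 := hball x hx'
    have hx2 : dist x e1 < 1/2 := (mem_ball.1 hx).trans_le (min_le_right _ _)
    rw [dist_eq_norm] at hx2
    have hn1 : ‖x‖ ≤ 3/2 := by
      have := norm_le_norm_add_norm_sub' x e1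
      rw [e1_norm] at this; linarith
    have hn2 : 0 < ‖x‖ := by
      have := norm_le_norm_add_norm_sub' e1 x
      rw [e1_norm, norm_sub_rev] at this; linarith
    have e : ‖x‖ ^ (-beta 3 α q) * |ψ x| ^ q
        = ‖x‖ ^ (-3 : ℝ) * (‖x‖ ^ ((α - 1) / 2) * |ψ x|) ^ q := by
      rw [Real.mul_rpow (by positivity) (abs_nonneg _), ← Real.rpow_mul hn2.le, ← mul_assoc,
        ← Real.rpow_add hn2]
      congr 2; unfold beta; push_cast; ring
    rw [e]
    apply mul_le_mul _ _ (by positivity) (by positivity)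
    · exact Real.rpow_le_rpow_of_nonpos hn2 hn1 (by norm_num)
    · exact Real.rpow_le_rpow hKT.le h5.le hq0.le
  have hint := massR_int hψ α hq0
  have h6 : (volume (ball e1 s)).toReal * ((3/2 : ℝ) ^ (-3 : ℝ) * (K' * ‖TL α ψ‖) ^ q)
      ≤ massR α q ψ := by
    have h7 : ∫ x in ball e1 s, ((3/2 : ℝ) ^ (-3 : ℝ) * (K' * ‖TL α ψ‖) ^ q)
        ≤ ∫ x in ball e1 s, ‖x‖ ^ (-beta 3 α q) * |ψ x| ^ q := by
      apply setIntegral_mono_on _ hint.integrableOn measurableSet_ball hpt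
      exact integrableOn_const measure_ball_lt_top.ne
    rw [setIntegral_const, smul_eq_mul] at h7
    refine h7.trans ?_
    unfold massR
    exact setIntegral_le_integral hint (ae_of_all _ (fun x => by positivity))
  have h8 := le_MM h1 h3 hq hψ
  rw [energy_rpow hα hψ] at h8
  rw [Real.mul_rpow hK'.le hT.le] at h6
  have hTq : 0 < ‖TL α ψ‖ ^ q := by positivity
  refine le_of_mul_le_mul_right ?_ hTq
  calc (volume (ball e1 s)).toReal * (3/2 : ℝ) ^ (-3 : ℝ) * K' ^ q * ‖TL α ψ‖ ^ q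
      = (volume (ball e1 s)).toReal * ((3/2 : ℝ) ^ (-3 : ℝ) * (K' ^ q * ‖TL α ψ‖ ^ q)) := by ring
    _ ≤ _ := h6.trans h8

end Pool.Agent.W5h16.RC
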