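import Pool.Agent.W5h16.RC.Limit
import Pool.Agent.R217.HS.BL

/-!
# Existence of extremals in dimension three
-/

set_option autoImplicit false

open MeasureTheory Set Filter Topology Metric
open scoped InnerProductSpace ContDiff Laplacian ENNReal RealInnerProductSpace
open Pool.Agent.R217.HS (exists_weak_subseq brezis_lieb)

namespace Pool.Agent.W5h16.RC

lemma weak_mem {X : Type*} [NormedAddCommGroup X] [InnerProductSpace ℝ X] [CompleteSpace X]
    {V : Submodule ℝ X} {y : ℕ → X} (hy : ∀ k, y k ∈ V) {z : X}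
    (h : ∀ w, Tendsto (fun k => ⟪y k, w⟫) atTop (𝓝 ⟪z, w⟫)) : z ∈ V.topologicalClosure := by
  have hcomp : CompleteSpace V.topologicalClosure :=
    (V.isClosed_topologicalClosure.isComplete).completeSpace_coe
  rw [← Submodule.orthogonal_orthogonal V.topologicalClosure]
  rw [Submodule.mem_orthogonal]
  intro w hw
  rw [Submodule.mem_orthogonal] at hw
  have h1 : Tendsto (fun k => ⟪y k, w⟫) atTop (𝓝 0) := by
    have : (fun k => ⟪y k, w⟫) = fun _ => (0:ℝ) := by
      funext k; exact hw _ (V.le_topologicalClosure (hy k))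
    rw [this]; exact tendsto_const_nhds
  rw [real_inner_comm]
  exact tendsto_nhds_unique (h w) h1

/-- a maximizing sequence which does not vanish at `e1` -/
lemma max_seq {α : ℝ} (h1 : 1 < α) (h3 : α < 3) {q : ℝ} (hq : 2 < q) :
    ∃ (c : ℝ) (ψ : ℕ → E 3 → ℝ), 0 < c ∧ (∀ k, Test (ψ k)) ∧ (∀ k, energy α (ψ k) ≤ 1) ∧
      (∀ k, c ≤ |ψ k e1|) ∧ Tendsto (fun k => massR α q (ψ k)) atTop (𝓝 (MM α q)) := by
  have hM := MM_pos h1 h3 hq
  have hR := RR_pos h1 h3
  set M := MM α q with hMdef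
  have hne : {m | ∃ φ : E 3 → ℝ, Test φ ∧ energy α φ ≤ 1 ∧ m = massR α q φ}.Nonempty := by
    refine ⟨_, _, zero_test, ?_, rfl⟩
    have := energy_smul zero_test α 0
    simp at this
    rw [this]; norm_num
  obtain ⟨m, -, hm, hmem⟩ := exists_seq_tendsto_sSup hne (MM_bdd h1 h3 hq)
  have hmM : Tendsto m atTop (𝓝 M) := hm
  choose φ hφ hE hmφ using hmem
  obtain ⟨K, hK⟩ := eventually_atTop.1 (hmM.eventually (lt_mem_nhds (show M / 2 < M by linarith)))
  set c : ℝ := (M / (4 * RR α)) ^ (1 / (q - 2)) with hc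
  have hq2 : 0 < q - 2 := by linarith
  have hc0 : 0 < c := by positivity
  have hcq : c ^ (q - 2) = M / (4 * RR α) := by
    rw [hc, ← Real.rpow_mul (by positivity), one_div_mul_cancel hq2.ne', Real.rpow_one]
  have hex : ∀ k, ∃ a : E 3, a ≠ 0 ∧ c ≤ ‖a‖ ^ ((α - 1) / 2) * |φ (k + K) a| := by
    intro k
    by_contra hcon
    push Not at hcon
    have h4 := massR_le (hφ (k + K)) hq (α := α) (Λ := c) (fun a ha => (hcon a ha).le)
    have h5 := intA_le h1 h3 (hφ (k + K))
    have h6 := hK (k + K) (by omega)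
    rw [hmφ] at h6
    have h7 : intA α (φ (k + K)) ≤ RR α := by
      refine h5.trans ?_
      have := mul_le_mul_of_nonneg_left (hE (k + K)) hR.le
      linarith
    rw [hcq] at h4
    have h8 : M / (4 * RR α) * intA α (φ (k + K)) ≤ M / 4 := by
      calc M / (4 * RR α) * intA α (φ (k + K)) ≤ M / (4 * RR α) * RR α := by
            apply mul_le_mul_of_nonneg_left h7 (by positivity)
        _ = M / 4 := by field_simp
    linarith
  choose a ha hca using hex
  choose ψ hψ hψE hψm hψv _ using fun k => move (hφ (k + K)) α q (ha k)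
  refine ⟨c, ψ, hc0, hψ, fun k => ?_, fun k => ?_, ?_⟩
  · rw [hψE]; exact hE _
  · rw [hψv, abs_mul, abs_of_nonneg (by positivity : 0 ≤ ‖a k‖ ^ ((α - 1) / 2))]
    exact hca k
  · have : (fun k => massR α q (ψ k)) = fun k => m (k + K) := by
      ext k; rw [hψm, hmφ]
    rw [this]
    exact (tendsto_add_atTop_iff_nat K).2 hmM

lemma rpow_key {q t : ℝ} (hq : 2 < q) (ht0 : 0 < t) (ht1 : t ≤ 1)
    (h : 1 ≤ t ^ (q / 2) + (1 - t) ^ (q / 2)) : t = 1 := by
  by_contra hne
  have ht : t < 1 := lt_of_le_of_ne ht1 hne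
  have h1 : t ^ (q / 2) < t := by
    have := Real.rpow_lt_rpow_of_exponent_gt ht0 ht (show 1 < q / 2 by linarith)
    rwa [Real.rpow_one] at this
  have h2 : (1 - t) ^ (q / 2) ≤ 1 - t := by
    have := Real.rpow_le_rpow_of_exponent_ge (show 0 < 1 - t by linarith) (by linarith)
      (show 1 ≤ q / 2 by linarith)
    rwa [Real.rpow_one] at this
  linarith

theorem exists_max {α : ℝ} (h1 : 1 < α) (h3 : α < 3) {q : ℝ} (hq : 2 < q) :
    ∃ u : E 3 → ℝ, Elt α q u 1 ∧ mass α q u = ENNReal.ofReal (MM α q) := by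
  have hα : 0 < α := by linarith
  have hq0 : 0 < q := by linarith
  have hM := MM_pos h1 h3 hq
  obtain ⟨c, ψ₀, hc0, hψ₀, hE₀, hc₀, hm₀⟩ := max_seq h1 h3 hq
  have hn₀ : ∀ k, ‖TL α (ψ₀ k)‖ ≤ 1 := fun k => by
    rw [TL_norm hα (hψ₀ k)]; exact Real.sqrt_le_one.2 (hE₀ k)
  have hfact : Fact ((2 : ℝ≥0∞) ≠ ⊤) := ⟨by simp⟩
  have hsep : SecondCountableTopology L2 := inferInstance
  obtain ⟨F, ns, hns, hw⟩ := exists_weak_subseq (fun k => TL α (ψ₀ k)) hn₀
  set ψ : ℕ → E 3 → ℝ := fun k => ψ₀ (ns k) with hψdef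
  have hψ : ∀ k, Test (ψ k) := fun k => hψ₀ _
  set y : ℕ → L2 := fun k => TL α (ψ k) with hy
  have hn : ∀ k, ‖y k‖ ≤ 1 := fun k => hn₀ _
  have hw' : ∀ w, Tendsto (fun k => ⟪y k, w⟫) atTop (𝓝 ⟪F, w⟫) := hw
  have hm : Tendsto (fun k => massR α q (ψ k)) atTop (𝓝 (MM α q)) :=
    hm₀.comp hns.tendsto_atTop
  have hFc : F ∈ (VV α hα).topologicalClosure := weak_mem (fun k => TL_mem hα (hψ k)) hw'
  set u := uf α F with hu
  have hum : AEStronglyMeasurable u volume := uf_aesm h1 h3 hψ hw'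
  -- nonvanishing
  have hue : c ≤ |u e1| := by
    have := (tendsto_of_TL h1 h3 hψ hw' e1_ne).abs
    exact ge_of_tendsto' this (fun k => hc₀ _)
  have hF0 : F ≠ 0 := by
    intro h
    rw [hu, h, uf, inner_zero_left, abs_zero] at hue
    linarith
  set t : ℝ := ‖F‖ ^ 2 with ht
  have hFp : 0 < ‖F‖ := norm_pos_iff.2 hF0
  have ht0 : 0 < t := by positivity
  have hF1 : ‖F‖ ≤ 1 := by
    have h5 : ⟪F, F⟫ ≤ 1 * ‖F‖ := by
      apply le_of_tendsto' (hw' F)
      intro k
      exact (real_inner_le_norm _ _).trans (mul_le_mul_of_nonneg_right (hn k) hFp.le)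
    rw [real_inner_self_eq_norm_sq] at h5
    nlinarith
  have ht1 : t ≤ 1 := by rw [ht]; nlinarith
  -- masses
  have hfin : mass α q u ≠ ⊤ := ((mass_uf_le h1 h3 hq hFc).trans_lt ENNReal.ofReal_lt_top).ne
  have hmu : (mass α q u).toReal ≤ MM α q * ‖F‖ ^ q := by
    apply ENNReal.toReal_le_of_le_ofReal (by positivity)
    exact mass_uf_le h1 h3 hq hFc
  have hdiff : ∀ k, mass α q (fun x => ψ k x - u x) ≤ ENNReal.ofReal (MM α q * ‖y k - F‖ ^ q) := by
    intro k
    have hmem : y k - F ∈ (VV α hα).topologicalClosure :=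
      Submodule.sub_mem _ ((VV α hα).le_topologicalClosure (TL_mem hα (hψ k))) hFc
    have : mass α q (fun x => ψ k x - u x) = mass α q (uf α (y k - F)) := by
      apply mass_congr
      filter_upwards [ae_ne] with x hx
      rw [uf, inner_sub_left, hy]
      simp only
      rw [KL_inner h1 h3 hx (hψ k)]
      rfl
    rw [this]
    exact mass_uf_le h1 h3 hq hmem
  have hsqt : Tendsto (fun k => 1 - 2 * ⟪y k, F⟫ + ‖F‖ ^ 2) atTop (𝓝 (1 - t)) := by
    have := ((hw' F).const_mul 2).const_sub 1 |>.add_const (‖F‖ ^ 2)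
    rw [real_inner_self_eq_norm_sq] at this
    convert this using 2
    ring
  have hsq : ∀ k, ‖y k - F‖ ^ 2 ≤ 1 - 2 * ⟪y k, F⟫ + ‖F‖ ^ 2 := by
    intro k
    rw [norm_sub_sq_real]
    have := hn k
    nlinarith [norm_nonneg (y k)]
  have hpow : ∀ k, ‖y k - F‖ ^ q ≤ (1 - 2 * ⟪y k, F⟫ + ‖F‖ ^ 2) ^ (q / 2) := by
    intro k
    have : ‖y k - F‖ ^ q = (‖y k - F‖ ^ 2) ^ (q / 2) := by
      rw [← Real.rpow_natCast, ← Real.rpow_mul (norm_nonneg _)]
      congr 1; push_cast; ring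
    rw [this]
    exact Real.rpow_le_rpow (by positivity) (hsq k) (by linarith)
  have hpowt : Tendsto (fun k => (1 - 2 * ⟪y k, F⟫ + ‖F‖ ^ 2) ^ (q / 2)) atTop
      (𝓝 ((1 - t) ^ (q / 2))) := hsqt.rpow_const (Or.inr (by linarith))
  -- Brezis-Lieb
  have hpsi : ∀ k, (mass α q (ψ k)).toReal = massR α q (ψ k) := fun k => by
    rw [mass_test hq0 (hψ k), ENNReal.toReal_ofReal (massR_nonneg _ _ _)]
  have hpsif : ∀ k, mass α q (ψ k) ≠ ⊤ := fun k => by
    rw [mass_test hq0 (hψ k)]; exact ENNReal.ofReal_ne_top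
  have hdf : ∀ k, mass α q (fun x => ψ k x - u x) ≠ ⊤ := fun k =>
    ((hdiff k).trans_lt ENNReal.ofReal_lt_top).ne
  have hleM : ∀ k, massR α q (ψ k) ≤ MM α q := fun k =>
    le_csSup (MM_bdd h1 h3 hq) ⟨_, hψ k, hE₀ _, rfl⟩
  have hBL := brezis_lieb (μ := nu α q) (q := q) (by linarith) (f := ψ) (g := u)
    (fun k => (int_nu (hψ k).aesm (hpsif k)).1) (int_nu hum hfin).1
    (fun k => (hψ k).aesm.mono_ac (nu_ac α q)) (hum.mono_ac (nu_ac α q)) (M := MM α q)
    (fun k => by rw [(int_nu (hψ k).aesm (hpsif k)).2, hpsi]; exact hleM k)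
    ((nu_ac α q).ae_le (by
      filter_upwards [ae_ne] with x hx
      exact tendsto_of_TL h1 h3 hψ hw' hx))
  rw [(int_nu hum hfin).2] at hBL
  have hBL2 : Tendsto (fun k => massR α q (ψ k) - (mass α q (fun x => ψ k x - u x)).toReal) atTop
      (𝓝 (mass α q u).toReal) := by
    refine hBL.congr (fun k => ?_)
    have hsub : AEStronglyMeasurable (fun x => ψ k x - u x) volume := (hψ k).aesm.sub hum
    rw [(int_nu (hψ k).aesm (hpsif k)).2, hpsi, (int_nu hsub (hdf k)).2]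
  have hkey : MM α q ≤ (mass α q u).toReal + MM α q * (1 - t) ^ (q / 2) := by
    have h5 := hBL2.add (hpowt.const_mul (MM α q))
    refine le_of_tendsto_of_tendsto' hm h5 (fun k => ?_)
    have h6 : (mass α q (fun x => ψ k x - u x)).toReal ≤ MM α q * ‖y k - F‖ ^ q :=
      ENNReal.toReal_le_of_le_ofReal (by positivity) (hdiff k)
    have h7 := mul_le_mul_of_nonneg_left (hpow k) hM.le
    linarith
  have hFq : ‖F‖ ^ q = t ^ (q / 2) := by
    rw [ht, ← Real.rpow_natCast, ← Real.rpow_mul (norm_nonneg _)]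
    congr 1; push_cast; ring
  have ht1' : t = 1 := by
    apply rpow_key hq ht0 ht1
    rw [hFq] at hmu
    have h8 : MM α q * 1 ≤ MM α q * (t ^ (q / 2) + (1 - t) ^ (q / 2)) := by
      rw [mul_add, mul_one]; linarith
    exact le_of_mul_le_mul_left h8 hM
  have hFn : ‖F‖ = 1 := by
    have : ‖F‖ ^ 2 = 1 := ht1'
    nlinarith
  rw [ht1', sub_self, Real.zero_rpow (by linarith), mul_zero, add_zero] at hkey
  rw [hFn, Real.one_rpow, mul_one] at hmu
  have hmass : mass α q u = ENNReal.ofReal (MM α q) := by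
    rw [← le_antisymm hmu hkey, ENNReal.ofReal_toReal hfin]
  -- strong convergence
  have hstrong : Tendsto y atTop (𝓝 F) := by
    rw [tendsto_iff_norm_sub_tendsto_zero]
    have h9 : Tendsto (fun k => ‖y k - F‖ ^ 2) atTop (𝓝 0) := by
      rw [ht1', sub_self] at hsqt
      exact squeeze_zero (fun k => by positivity) hsq hsqt
    have h10 := h9.sqrt
    simpa [Real.sqrt_sq (norm_nonneg _)] using h10
  refine ⟨u, ⟨hum, ψ, hψ, ?_, ?_, ?_⟩, hmass⟩
  · intro ε hε
    have hC := hstrong.cauchySeq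
    rw [Metric.cauchySeq_iff] at hC
    obtain ⟨K, hK⟩ := hC (Real.sqrt ε) (by positivity)
    refine ⟨K, fun k hk l hl => ?_⟩
    have h11 := hK k hk l hl
    rw [dist_eq_norm, hy] at h11
    simp only at h11
    rw [← TL_sub hα (hψ k) (hψ l), TL_norm hα ((hψ k).sub (hψ l))] at h11
    exact (Real.sqrt_lt_sqrt_iff (energy_nonneg _ _)).1 h11
  · have h12 := (hstrong.norm).pow 2
    rw [hFn, one_pow] at h12
    refine h12.congr (fun k => ?_)
    rw [hy]; simp only
    rw [TL_norm_sq hα (hψ k)]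
  · have h13 : Tendsto (fun k => ENNReal.ofReal (MM α q * ‖y k - F‖ ^ q)) atTop (𝓝 0) := by
      have h14 : Tendsto (fun k => MM α q * ‖y k - F‖ ^ q) atTop (𝓝 (MM α q * (0:ℝ) ^ q)) :=
        ((tendsto_iff_norm_sub_tendsto_zero.1 hstrong).rpow_const (Or.inr hq0.le)).const_mul _
      rw [Real.zero_rpow hq0.ne', mul_zero] at h14
      have := (ENNReal.continuous_ofReal.tendsto _).comp h14
      rwa [ENNReal.ofReal_zero] at this
    exact tendsto_of_tendsto_of_tendsto_of_le_of_le tendsto_const_nhds h13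
      (fun k => zero_le) hdiff

end Pool.Agent.W5h16.RC
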