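import Pool.Agent.W5h16.RC.Exist
import Pool.Agent.W5h16.RC.Even

/-!
# Extremals exist, and are not even for large exponents
-/

set_option autoImplicit false

open MeasureTheory Set Filter Topology Metric
open scoped InnerProductSpace ContDiff Laplacian ENNReal RealInnerProductSpace

namespace Pool.Agent.W5h16.RC

lemma Elt.nonneg {α q : ℝ} {v : E 3 → ℝ} {N : ℝ} (h : Elt α q v N) : 0 ≤ N := by
  obtain ⟨φ, -, -, hN, -⟩ := h.ex
  exact ge_of_tendsto' hN (fun k => energy_nonneg _ _)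

lemma Elt.mass_le {α : ℝ} (h1 : 1 < α) (h3 : α < 3) {q : ℝ} (hq : 2 < q) {v : E 3 → ℝ} {N : ℝ}
    (h : Elt α q v N) : mass α q v ≤ ENNReal.ofReal (MM α q * N ^ (q / 2)) := by
  obtain ⟨φ, hφ, -, hN, hm⟩ := h.ex
  exact lim_mass (by linarith) h.meas hφ (fun k => le_MM h1 h3 hq (hφ k))
    (hN.rpow_const (Or.inr (by linarith))) hm

lemma mass_ne_zero {α q : ℝ} (hq : 0 < q) {v : E 3 → ℝ} (hv : AEStronglyMeasurable v volume)
    (h0 : ¬ (v =ᵐ[volume] 0)) : mass α q v ≠ 0 := by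
  intro hm
  apply h0
  unfold mass at hm
  rw [lintegral_eq_zero_iff'] at hm
  · filter_upwards [hm, ae_ne] with x hx hx0
    have hp : 0 < ‖x‖ := norm_pos_iff.2 hx0
    simp only [Pi.zero_apply, ENNReal.ofReal_eq_zero] at hx
    by_contra hne
    have : 0 < |v x| := abs_pos.2 hne
    have : 0 < ‖x‖ ^ (-beta 3 α q) * |v x| ^ q := by positivity
    linarith
  · exact ((measurable_norm.pow_const _).aemeasurable.mul
      (hv.norm.aemeasurable.pow_const q)).ennreal_ofReal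

/-- The basic facts on a nonzero element. -/
lemma Elt.facts {α : ℝ} (h1 : 1 < α) (h3 : α < 3) {q : ℝ} (hq : 2 < q) {v : E 3 → ℝ} {N : ℝ}
    (h : Elt α q v N) (h0 : ¬ (v =ᵐ[volume] 0)) :
    0 < (mass α q v).toReal ∧ 0 < N ∧ (mass α q v).toReal ≤ MM α q * N ^ (q / 2) := by
  have hle := h.mass_le h1 h3 hq
  have hfin : mass α q v ≠ ⊤ := (hle.trans_lt ENNReal.ofReal_lt_top).ne
  have hm : 0 < (mass α q v).toReal := ENNReal.toReal_pos (mass_ne_zero (by linarith) h.meas h0) hfin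
  have hN := h.nonneg
  have hM := MM_pos h1 h3 hq
  have h4 : (mass α q v).toReal ≤ MM α q * N ^ (q / 2) :=
    ENNReal.toReal_le_of_le_ofReal (by positivity) hle
  refine ⟨hm, ?_, h4⟩
  rcases hN.eq_or_lt with h5 | h5
  · rw [← h5, Real.zero_rpow (by linarith), mul_zero] at h4; linarith
  · exact h5

lemma quot_ge {α : ℝ} (h1 : 1 < α) (h3 : α < 3) {q : ℝ} (hq : 2 < q) {v : E 3 → ℝ} {N : ℝ}
    (h : Elt α q v N) (h0 : ¬ (v =ᵐ[volume] 0)) : 1 / MM α q ^ (2 / q) ≤ quot α q v N := by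
  obtain ⟨hm, hN, hle⟩ := h.facts h1 h3 hq h0
  have hM := MM_pos h1 h3 hq
  unfold quot
  rw [div_le_div_iff₀ (by positivity) (by positivity), one_mul]
  have h4 := Real.rpow_le_rpow hm.le hle (show 0 ≤ 2 / q by positivity)
  rw [Real.mul_rpow hM.le (by positivity), ← Real.rpow_mul hN.le,
    show q / 2 * (2 / q) = 1 by field_simp, Real.rpow_one] at h4
  linarith

theorem SS_eq {α : ℝ} (h1 : 1 < α) (h3 : α < 3) {q : ℝ} (hq : 2 < q) :
    SS 3 α q = 1 / MM α q ^ (2 / q) ∧ ∃ u : E 3 → ℝ, IsExtremal α q u := by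
  have hM := MM_pos h1 h3 hq
  obtain ⟨u, hu, hmu⟩ := exists_max h1 h3 hq
  have hne : ¬ (u =ᵐ[volume] 0) := by
    intro h
    have h5 : mass α q u = mass α q (fun _ => (0 : ℝ)) := mass_congr h
    rw [hmu] at h5
    have h6 : mass α q (fun _ : E 3 => (0 : ℝ)) = 0 := by
      unfold mass; simp [Real.zero_rpow (by linarith : q ≠ 0)]
    rw [h6, ENNReal.ofReal_eq_zero] at h5
    linarith
  have hq1 : quot α q u 1 = 1 / MM α q ^ (2 / q) := by
    unfold quot; rw [hmu, ENNReal.toReal_ofReal hM.le]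
  have hleast : IsLeast {t : ℝ | ∃ (u : E 3 → ℝ) (N : ℝ), Elt α q u N ∧ ¬ (u =ᵐ[volume] 0) ∧
      t = quot α q u N} (1 / MM α q ^ (2 / q)) := by
    refine ⟨⟨u, 1, hu, hne, hq1.symm⟩, ?_⟩
    rintro t ⟨v, N, hv, hv0, rfl⟩
    exact quot_ge h1 h3 hq hv hv0
  have hS : SS 3 α q = 1 / MM α q ^ (2 / q) := hleast.csInf_eq
  exact ⟨hS, u, 1, hu, hne, by rw [hq1, hS]⟩

/-- the mass of an extremal -/
lemma extremal_mass {α : ℝ} (h1 : 1 < α) (h3 : α < 3) {q : ℝ} (hq : 2 < q) {v : E 3 → ℝ} {N : ℝ}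
    (h : Elt α q v N) (h0 : ¬ (v =ᵐ[volume] 0)) (hS : quot α q v N = SS 3 α q) :
    (mass α q v).toReal = MM α q * N ^ (q / 2) := by
  obtain ⟨hm, hN, hle⟩ := h.facts h1 h3 hq h0
  have hM := MM_pos h1 h3 hq
  rw [(SS_eq h1 h3 hq).1, quot, div_eq_div_iff (by positivity) (by positivity), one_mul] at hS
  have h4 : ((mass α q v).toReal ^ (2 / q)) ^ (q / 2) = (N * MM α q ^ (2 / q)) ^ (q / 2) := by
    rw [hS]
  rw [Real.mul_rpow hN.le (by positivity), ← Real.rpow_mul hm.le, ← Real.rpow_mul hM.le,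
    show 2 / q * (q / 2) = 1 by field_simp, Real.rpow_one, Real.rpow_one] at h4
  rw [h4]; ring

/-- the even part -/
noncomputable def evp (φ : E 3 → ℝ) (x : E 3) : ℝ := (1/2) * (φ x + ng φ x)

lemma evp_test {φ : E 3 → ℝ} (h : Test φ) : Test (evp φ) := (h.add (ng_test h)).smul (1/2)

lemma evp_even (φ : E 3 → ℝ) (x : E 3) : evp φ (-x) = evp φ x := by
  simp only [evp, ng, neg_neg]; ring

lemma evp_energy {α : ℝ} (hα : 0 < α) {φ : E 3 → ℝ} (h : Test φ) :
    energy α (evp φ) ≤ energy α φ := by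
  have h1 : ‖TL α (evp φ)‖ ≤ ‖TL α φ‖ := by
    have e : TL α (evp φ) = (1/2 : ℝ) • (TL α φ + TL α (ng φ)) := by
      rw [← TL_add hα h (ng_test h), ← TL_smul hα (h.add (ng_test h))]
      rfl
    rw [e, norm_smul]
    have h2 : ‖TL α (ng φ)‖ = ‖TL α φ‖ := by
      rw [TL_norm hα (ng_test h), TL_norm hα h, ng_energy h]
    have h3 := norm_add_le (TL α φ) (TL α (ng φ))
    rw [h2] at h3
    norm_num
    linarith
  rw [← TL_norm_sq hα (evp_test h), ← TL_norm_sq hα h]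
  have := norm_nonneg (TL α (evp φ))
  nlinarith

lemma mass_ng (α q : ℝ) (f : E 3 → ℝ) : mass α q (ng f) = mass α q f := by
  have h := lintegral_neg_eq_self (μ := (volume : Measure (E 3)))
    (fun x : E 3 => ENNReal.ofReal (‖x‖ ^ (-beta 3 α q) * |f x| ^ q))
  unfold mass ng
  rw [← h]
  congr 1; ext x
  rw [norm_neg]

lemma evp_mass {α q : ℝ} (hq : 0 < q) {φ v : E 3 → ℝ} (h : Test φ)
    (hv : AEStronglyMeasurable v volume) (hev : ∀ᵐ x : E 3, v (-x) = v x) :
    mass α q (fun x => evp φ x - v x) ≤ 2 * mass α q (fun x => φ x - v x) := by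
  have e : mass α q (fun x => φ x - v x) = mass α q (ng (fun x => φ x - v x)) :=
    (mass_ng _ _ _).symm
  have e2 : 2 * mass α q (fun x => φ x - v x)
      = mass α q (fun x => φ x - v x) + mass α q (ng (fun x => φ x - v x)) := by
    rw [← e, two_mul]
  rw [e2]
  unfold mass
  rw [← lintegral_add_left']
  · apply lintegral_mono_ae
    filter_upwards [hev] with x hx
    rw [← ENNReal.ofReal_add (by positivity) (by positivity)]
    apply ENNReal.ofReal_le_ofReal
    rw [← mul_add]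
    apply mul_le_mul_of_nonneg_left _ (by positivity)
    set a := φ x - v x with ha
    have hb : ng (fun x => φ x - v x) x = ng φ x - v x := by simp only [ng, hx]
    rw [hb]
    set b := ng φ x - v x with hb'
    have hab : evp φ x - v x = (1/2) * (a + b) := by rw [evp, ha, hb']; ring
    rw [hab]
    have h4 : |(1/2) * (a + b)| ≤ max |a| |b| := by
      rw [abs_mul, abs_of_pos (by norm_num : (0:ℝ) < 1/2)]
      have h5 := abs_add_le a b
      have h6 := le_max_left |a| |b|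
      have h7 := le_max_right |a| |b|
      linarith
    have h8 := Real.rpow_le_rpow (abs_nonneg _) h4 hq.le
    refine h8.trans ?_
    rcases max_choice |a| |b| with h9 | h9
    · rw [h9]; have : 0 ≤ |b| ^ q := by positivity
      linarith
    · rw [h9]; have : 0 ≤ |a| ^ q := by positivity
      linarith
  · exact ((measurable_norm.pow_const _).aemeasurable.mul
      ((h.aesm.sub hv).norm.aemeasurable.pow_const q)).ennreal_ofReal

/-- the bound for even elements -/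
lemma even_mass {α : ℝ} (h1 : 1 < α) (h3 : α < 3) {q : ℝ} (hq : 2 < q) {v : E 3 → ℝ} {N : ℝ}
    (h : Elt α q v N) (hev : ∀ᵐ x : E 3, v (-x) = v x) {K1 : ℝ} (hK1 : 0 ≤ K1)
    (hK : EvB α K1 (fun φ => ∀ x, φ (-x) = φ x)) :
    mass α q v ≤ ENNReal.ofReal (K1 ^ (q - 2) * RR α * N ^ (q / 2)) := by
  obtain ⟨φ, hφ, -, hN, hm⟩ := h.ex
  have hR := RR_pos h1 h3
  refine lim_mass (φ := fun k => evp (φ k)) (b := fun k => energy α (φ k) ^ (q / 2))
    (by linarith) h.meas (fun k => evp_test (hφ k)) (fun k => ?_)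
    (hN.rpow_const (Or.inr (by linarith))) ?_
  · refine (massR_bound h1 h3 hq hK1 hK (evp_test (hφ k)) (evp_even _)).trans ?_
    apply mul_le_mul_of_nonneg_left _ (by positivity)
    exact Real.rpow_le_rpow (energy_nonneg _ _) (evp_energy (by linarith) (hφ k)) (by linarith)
  · have h4 : Tendsto (fun k => 2 * mass α q (fun x => φ k x - v x)) atTop (𝓝 (2 * 0)) :=
      ENNReal.Tendsto.const_mul hm (Or.inr (by norm_num))
    rw [mul_zero] at h4
    exact tendsto_of_tendsto_of_tendsto_of_le_of_le tendsto_const_nhds h4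
      (fun k => zero_le) (fun k => evp_mass (by linarith) (hφ k) h.meas hev)

theorem not_even {α : ℝ} (h1 : 1 < α) (h3 : α < 3) :
    ∃ q0 : ℝ, 2 < q0 ∧ ∀ q : ℝ, q0 ≤ q → ∀ u : E 3 → ℝ, IsExtremal α q u →
      ¬ (∀ᵐ x : E 3, u (-x) = u x) := by
  obtain ⟨K1, K', hK1, hlt, hEv, ψ, hψ, hv⟩ := gap h1 h3
  obtain ⟨v0, hv0, hlow⟩ := MM_lower h1 h3 (hK1.trans hlt) hψ hv
  have hR := RR_pos h1 h3
  have hb : 1 < K' / K1 := (one_lt_div hK1).2 hlt
  have ht := tendsto_rpow_atTop_of_base_gt_one _ hb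
  obtain ⟨q0, hq0⟩ := eventually_atTop.1 (ht.eventually_gt_atTop (RR α / (v0 * K1 ^ (2:ℝ))))
  refine ⟨max q0 3, lt_max_of_lt_right (by norm_num), fun q hq u hu hev => ?_⟩
  have hq2 : 2 < q := by
    have := le_max_right q0 3; linarith
  have hbig := hq0 q ((le_max_left _ _).trans hq)
  obtain ⟨N, hN, hne, hS⟩ := hu
  obtain ⟨hm, hNp, -⟩ := hN.facts h1 h3 hq2 hne
  have hmass := extremal_mass h1 h3 hq2 hN hne hS
  have h4 := ENNReal.toReal_le_of_le_ofReal (by positivity)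
    (even_mass h1 h3 hq2 hN hev hK1.le hEv)
  rw [hmass] at h4
  have h5 : MM α q ≤ K1 ^ (q - 2) * RR α :=
    le_of_mul_le_mul_right h4 (by positivity)
  have h6 := (hlow q hq2).trans h5
  rw [Real.div_rpow (hK1.trans hlt).le hK1.le, lt_div_iff₀ (by positivity)] at hbig
  have h7 : K1 ^ (q - 2) * K1 ^ (2:ℝ) = K1 ^ q := by
    rw [← Real.rpow_add hK1]; congr 1; ring
  have hKp : 0 < K1 ^ (2:ℝ) := by positivity
  have h8 : RR α / (v0 * K1 ^ (2:ℝ)) * K1 ^ q = K1 ^ (q - 2) * RR α / v0 := by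
    rw [← h7]; field_simp
  rw [h8, div_lt_iff₀ hv0] at hbig
  linarith

lemma radial_even {u : E 3 → ℝ} (h : IsRadial u) : ∀ᵐ x : E 3, u (-x) = u x := by
  obtain ⟨g, hg⟩ := h
  have h2 : ∀ᵐ x : E 3, u (-x) = g ‖-x‖ :=
    (Measure.measurePreserving_neg (volume : Measure (E 3))).quasiMeasurePreserving.ae hg
  filter_upwards [hg, h2] with x hx hx2
  rw [hx, hx2, norm_neg]

end Pool.Agent.W5h16.RC
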