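import Pool.Agent.W5h16.RC.Kernel
import Pool.Agent.R217.HS.L2

/-!
# The Hilbert space picture: `φ ↦ |x|^{α/2} Δφ` in `L²(ℝ³)` and the reproducing kernel
-/

set_option autoImplicit false

open MeasureTheory Set Filter Topology Metric
open scoped InnerProductSpace ContDiff Laplacian ENNReal RealInnerProductSpace
open Pool.Agent.Helper486.TP (newton)
open Pool.Agent.R217.HS (inner_toLp norm_sq_toLp)

namespace Pool.Agent.W5h16.RC

section Alg
variable {n : ℕ}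

lemma Test.add {φ ψ : E n → ℝ} (h : Test φ) (h' : Test ψ) : Test (fun x => φ x + ψ x) := by
  refine ⟨h.smooth.add h'.smooth, h.cpt.add h'.cpt, fun h0 => ?_⟩
  rcases tsupport_add φ ψ h0 with h1 | h1
  · exact h.zero h1
  · exact h'.zero h1

lemma Test.smul {φ : E n → ℝ} (h : Test φ) (c : ℝ) : Test (fun x => c * φ x) := by
  have := h.sup.mono (h := fun x => c * φ x) (fun x hx => by rw [hx, mul_zero])
  exact ⟨contDiff_const.mul h.smooth, this.cpt, this.zero⟩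

lemma Test.sub {φ ψ : E n → ℝ} (h : Test φ) (h' : Test ψ) : Test (fun x => φ x - ψ x) := by
  have := h.add (h'.smul (-1))
  convert this using 2
  ring

lemma lap_add {φ ψ : E n → ℝ} (h : Test φ) (h' : Test ψ) (x : E n) :
    (Δ (fun x => φ x + ψ x)) x = (Δ φ) x + (Δ ψ) x :=
  ContDiffAt.laplacian_add h.smooth.contDiffAt h'.smooth.contDiffAt

lemma lap_smul {φ : E n → ℝ} (h : Test φ) (c : ℝ) (x : E n) :
    (Δ (fun x => c * φ x)) x = c * (Δ φ) x :=
  InnerProductSpace.laplacian_smul c h.smooth.contDiffAt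

lemma lap_sub {φ ψ : E n → ℝ} (h : Test φ) (h' : Test ψ) (x : E n) :
    (Δ (fun x => φ x - ψ x)) x = (Δ φ) x - (Δ ψ) x :=
  ContDiffAt.laplacian_sub h.smooth.contDiffAt h'.smooth.contDiffAt

end Alg

/-- `|y|^{α/2} Δφ(y)` -/
noncomputable def tf (α : ℝ) (φ : E 3 → ℝ) (y : E 3) : ℝ := ‖y‖ ^ (α / 2) * (Δ φ) y

noncomputable abbrev L2 := Lp ℝ 2 (volume : Measure (E 3))

lemma tf_cont {α : ℝ} (hα : 0 < α) {φ : E 3 → ℝ} (h : Test φ) : Continuous (tf α φ) := by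
  unfold tf
  exact (continuous_norm.rpow_const (fun x => Or.inr (by positivity))).mul (lapc h.smooth)

lemma tf_memLp {α : ℝ} (hα : 0 < α) {φ : E 3 → ℝ} (h : Test φ) : MemLp (tf α φ) 2 volume := by
  apply (tf_cont hα h).memLp_of_hasCompactSupport
  exact h.lapSup.cpt.mul_left

/-- the element `|y|^{α/2} Δφ(y)` of `L²(ℝ³)` (zero if `φ` is not a test function) -/
noncomputable def TL (α : ℝ) (φ : E 3 → ℝ) : L2 := by
  classical
  exact if h : MemLp (tf α φ) 2 volume then h.toLp else 0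

lemma TL_eq {α : ℝ} (hα : 0 < α) {φ : E 3 → ℝ} (h : Test φ) : TL α φ = (tf_memLp hα h).toLp := by
  unfold TL; rw [dif_pos (tf_memLp hα h)]

lemma TL_norm_sq {α : ℝ} (hα : 0 < α) {φ : E 3 → ℝ} (h : Test φ) :
    ‖TL α φ‖ ^ 2 = energy α φ := by
  rw [TL_eq hα h, norm_sq_toLp]
  unfold energy tf
  congr 1; ext x
  rw [Real.norm_eq_abs, sq_abs, mul_pow, ← Real.rpow_natCast (‖x‖ ^ _) 2,
    ← Real.rpow_mul (norm_nonneg _)]
  congr 2; push_cast; ring

lemma energy_nonneg {n : ℕ} (α : ℝ) (φ : E n → ℝ) : 0 ≤ energy α φ :=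
  integral_nonneg (fun x => by positivity)

lemma TL_norm {α : ℝ} (hα : 0 < α) {φ : E 3 → ℝ} (h : Test φ) :
    ‖TL α φ‖ = Real.sqrt (energy α φ) := by
  rw [← TL_norm_sq hα h, Real.sqrt_sq (norm_nonneg _)]

lemma TL_add {α : ℝ} (hα : 0 < α) {φ ψ : E 3 → ℝ} (h : Test φ) (h' : Test ψ) :
    TL α (fun x => φ x + ψ x) = TL α φ + TL α ψ := by
  rw [TL_eq hα h, TL_eq hα h', TL_eq hα (h.add h'), ← MemLp.toLp_add]
  congr 1
  ext x
  simp only [tf, Pi.add_apply]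
  rw [lap_add h h']; ring

lemma TL_smul {α : ℝ} (hα : 0 < α) {φ : E 3 → ℝ} (h : Test φ) (c : ℝ) :
    TL α (fun x => c * φ x) = c • TL α φ := by
  rw [TL_eq hα h, TL_eq hα (h.smul c), ← MemLp.toLp_const_smul]
  congr 1
  ext x
  simp only [tf, Pi.smul_apply, smul_eq_mul]
  rw [lap_smul h]; ring

lemma TL_sub {α : ℝ} (hα : 0 < α) {φ ψ : E 3 → ℝ} (h : Test φ) (h' : Test ψ) :
    TL α (fun x => φ x - ψ x) = TL α φ - TL α ψ := by
  rw [TL_eq hα h, TL_eq hα h', TL_eq hα (h.sub h'), ← MemLp.toLp_sub]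
  congr 1
  ext x
  simp only [tf, Pi.sub_apply]
  rw [lap_sub h h']; ring

/-- the constant `4π` -/
noncomputable def c0 : ℝ := Classical.choose (newton_laplacian2 (n := 3) le_rfl)

lemma c0_pos : 0 < c0 := (Classical.choose_spec (newton_laplacian2 (n := 3) le_rfl)).1

lemma c0_spec {φ : E 3 → ℝ} (h : Test φ) (a : E 3) :
    ∫ y, (newton a y).toReal * (Δ φ) y = -c0 * φ a :=
  (Classical.choose_spec (newton_laplacian2 (n := 3) le_rfl)).2 φ h.smooth h.cpt a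

/-- the reproducing kernel at `a` -/
noncomputable def KL (α : ℝ) (a : E 3) : L2 := by
  classical
  exact if h : MemLp (ker α a) 2 volume then (-c0⁻¹) • h.toLp else 0

theorem KL_inner {α : ℝ} (h1 : 1 < α) (h3 : α < 3) {a : E 3} (ha : a ≠ 0) {φ : E 3 → ℝ}
    (h : Test φ) : ⟪TL α φ, KL α a⟫ = φ a := by
  have hα : 0 < α := by linarith
  unfold KL
  rw [dif_pos (memLp_ker h1 h3 ha), TL_eq hα h, inner_smul_right, inner_toLp]
  have : ∫ y, ⟪tf α φ y, ker α a y⟫ = ∫ y, (newton a y).toReal * (Δ φ) y := by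
    apply integral_congr_ae
    have h0 : ∀ᵐ y : E 3, y ≠ 0 := by rw [ae_iff]; simp
    filter_upwards [h0] with y hy
    have hp : 0 < ‖y‖ := norm_pos_iff.2 hy
    simp only [tf, ker, RCLike.inner_apply, conj_trivial]
    have e : ‖y‖ ^ (α / 2) * ‖y‖ ^ (-(α / 2)) = 1 := by
      rw [← Real.rpow_add hp]; simp
    calc (newton a y).toReal * ‖y‖ ^ (-(α / 2)) * (‖y‖ ^ (α / 2) * (Δ φ) y)
        = (‖y‖ ^ (α / 2) * ‖y‖ ^ (-(α / 2))) * ((newton a y).toReal * (Δ φ) y) := by ring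
      _ = _ := by rw [e, one_mul]
  rw [this, c0_spec h]
  have := c0_pos.ne'
  field_simp

/-- the subspace of the `|y|^{α/2} Δφ(y)` -/
noncomputable def VV (α : ℝ) (hα : 0 < α) : Submodule ℝ L2 where
  carrier := {F | ∃ φ : E 3 → ℝ, Test φ ∧ F = TL α φ}
  add_mem' := by
    rintro F G ⟨φ, hφ, rfl⟩ ⟨ψ, hψ, rfl⟩
    exact ⟨_, hφ.add hψ, (TL_add hα hφ hψ).symm⟩
  zero_mem' := by
    have h0 : Test (fun _ : E 3 => (0 : ℝ)) := by
      refine ⟨contDiff_const, HasCompactSupport.zero, ?_⟩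
      rw [show (fun _ : E 3 => (0 : ℝ)) = 0 from rfl, tsupport_zero]
      exact notMem_empty _
    refine ⟨_, h0, ?_⟩
    have := TL_smul hα h0 0
    rw [zero_smul] at this
    simpa using this.symm
  smul_mem' := by
    rintro c F ⟨φ, hφ, rfl⟩
    exact ⟨_, hφ.smul c, (TL_smul hα hφ c).symm⟩

lemma mem_closure_seq {α : ℝ} {hα : 0 < α} {F : L2} (hF : F ∈ (VV α hα).topologicalClosure) :
    ∃ φ : ℕ → E 3 → ℝ, (∀ k, Test (φ k)) ∧ Tendsto (fun k => TL α (φ k)) atTop (𝓝 F) := by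
  change F ∈ closure ((VV α hα : Submodule ℝ L2) : Set L2) at hF
  rw [mem_closure_iff_seq_limit] at hF
  obtain ⟨x, hx, hx2⟩ := hF
  choose φ hφ using hx
  refine ⟨φ, fun k => (hφ k).1, ?_⟩
  refine hx2.congr (fun k => (hφ k).2)

lemma TL_mem {α : ℝ} (hα : 0 < α) {φ : E 3 → ℝ} (h : Test φ) : TL α φ ∈ VV α hα := ⟨φ, h, rfl⟩

/-- the function represented by an element of `L²` -/
noncomputable def uf (α : ℝ) (F : L2) (a : E 3) : ℝ := ⟪F, KL α a⟫

lemma uf_TL {α : ℝ} (h1 : 1 < α) (h3 : α < 3) {a : E 3} (ha : a ≠ 0) {φ : E 3 → ℝ}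
    (h : Test φ) : uf α (TL α φ) a = φ a := KL_inner h1 h3 ha h

end Pool.Agent.W5h16.RC
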