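import Pool.Agent.W5h16.RC.Hilbert

/-!
# Invariance under dilations and rotations
-/

set_option autoImplicit false

open MeasureTheory Set Filter Topology Metric
open scoped InnerProductSpace ContDiff Laplacian ENNReal RealInnerProductSpace

namespace Pool.Agent.W5h16.RC

/-- `∫ |x|^{-β} |φ|^q` as a real number -/
noncomputable def massR (α q : ℝ) (φ : E 3 → ℝ) : ℝ := ∫ x, ‖x‖ ^ (-beta 3 α q) * |φ x| ^ q

/-- the action of the dilations and rotations -/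
noncomputable def act (α l : ℝ) (ρ : E 3 ≃ₗᵢ[ℝ] E 3) (φ : E 3 → ℝ) (x : E 3) : ℝ :=
  l ^ ((α - 1) / 2) * φ (l • ρ x)

/-- the linear map `x ↦ l ρ x` -/
noncomputable def lin (l : ℝ) (ρ : E 3 ≃ₗᵢ[ℝ] E 3) : E 3 →L[ℝ] E 3 :=
  l • (ρ : E 3 →L[ℝ] E 3)

lemma lin_apply (l : ℝ) (ρ : E 3 ≃ₗᵢ[ℝ] E 3) (x : E 3) : lin l ρ x = l • ρ x := rfl

lemma lap_comp_lin {φ : E 3 → ℝ} (hφ : ContDiff ℝ 2 φ) (l : ℝ) (ρ : E 3 ≃ₗᵢ[ℝ] E 3) (x : E 3) :
    (Δ (fun x => φ (l • ρ x))) x = l ^ 2 * (Δ φ) (l • ρ x) := by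
  have h1 := InnerProductSpace.laplacian_eq_iteratedFDeriv_orthonormalBasis
    (fun x => φ (l • ρ x)) (EuclideanSpace.basisFun (Fin 3) ℝ)
  have h2 := InnerProductSpace.laplacian_eq_iteratedFDeriv_orthonormalBasis
    φ ((EuclideanSpace.basisFun (Fin 3) ℝ).map ρ)
  rw [congrFun h1 x, congrFun h2 (l • ρ x), Finset.mul_sum]
  apply Finset.sum_congr rfl
  intro i _
  have h3 := (lin l ρ).iteratedFDeriv_comp_right hφ x (i := 2) le_rfl
  change iteratedFDeriv ℝ 2 (φ ∘ (lin l ρ)) x _ = _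
  rw [h3, ContinuousMultilinearMap.compContinuousLinearMap_apply]
  have h4 : (fun j : Fin 2 => lin l ρ (![EuclideanSpace.basisFun (Fin 3) ℝ i,
      EuclideanSpace.basisFun (Fin 3) ℝ i] j)) = fun j : Fin 2 => (fun _ : Fin 2 => l) j •
      (![((EuclideanSpace.basisFun (Fin 3) ℝ).map ρ) i,
        ((EuclideanSpace.basisFun (Fin 3) ℝ).map ρ) i] j) := by
    ext j
    fin_cases j <;> simp [lin_apply]
  rw [h4, ContinuousMultilinearMap.map_smul_univ, lin_apply]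
  simp

lemma int_lin (g : E 3 → ℝ) {l : ℝ} (hl : 0 < l) (ρ : E 3 ≃ₗᵢ[ℝ] E 3) :
    l ^ 3 * ∫ x, g (l • ρ x) = ∫ x, g x := by
  have h1 : ∫ x, g (l • ρ x) = ∫ x, g (l • x) :=
    ρ.measurePreserving.integral_comp' (f := ρ.toHomeomorph.toMeasurableEquiv) (fun x => g (l • x))
  rw [h1, Measure.integral_comp_smul, finrankE3]
  rw [abs_of_pos (by positivity), smul_eq_mul, ← mul_assoc, mul_inv_cancel₀ (by positivity), one_mul]

lemma act_test {φ : E 3 → ℝ} (h : Test φ) (α : ℝ) {l : ℝ} (hl : 0 < l) (ρ : E 3 ≃ₗᵢ[ℝ] E 3) :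
    Test (act α l ρ φ) := by
  have hL : Continuous (lin l ρ) := (lin l ρ).continuous
  let e : E 3 ≃ₜ E 3 := ρ.toHomeomorph.trans (Homeomorph.smulOfNeZero l hl.ne')
  have he : ∀ x, e x = l • ρ x := fun x => rfl
  have t1 : Test (fun x => φ (l • ρ x)) := by
    refine ⟨h.smooth.comp (lin l ρ).contDiff, ?_, ?_⟩
    · exact h.cpt.comp_homeomorph e
    · intro h0
      have : (0 : E 3) ∈ e ⁻¹' tsupport φ := by
        have := tsupport_comp_subset_preimage φ e.continuous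
        exact this h0
      rw [mem_preimage, he] at this
      simp at this
      exact h.zero this
  exact t1.smul _

lemma lap_smul2 {n : ℕ} {φ : E n → ℝ} (h : ContDiff ℝ 2 φ) (c : ℝ) (x : E n) :
    (Δ (fun x => c * φ x)) x = c * (Δ φ) x :=
  InnerProductSpace.laplacian_smul c h.contDiffAt

lemma energy_act {φ : E 3 → ℝ} (h : Test φ) (α : ℝ) {l : ℝ} (hl : 0 < l) (ρ : E 3 ≃ₗᵢ[ℝ] E 3) :
    energy α (act α l ρ φ) = energy α φ := by
  unfold energy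
  have key := int_lin (fun x : E 3 => ‖x‖ ^ α * ((Δ φ) x) ^ 2) hl ρ
  rw [← key, ← integral_const_mul]
  congr 1; ext x
  have hs : ContDiff ℝ 2 (fun x => φ (l • ρ x)) := h.smooth.comp (lin l ρ).contDiff
  have e0 : act α l ρ φ = fun x => l ^ ((α - 1) / 2) * (fun y => φ (l • ρ y)) x := rfl
  have e1 : (Δ (act α l ρ φ)) x = l ^ ((α - 1) / 2) * (l ^ 2 * (Δ φ) (l • ρ x)) := by
    rw [e0, lap_smul2 hs, lap_comp_lin h.smooth]
  rw [e1, norm_smul, LinearIsometryEquiv.norm_map, Real.norm_of_nonneg hl.le,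
    Real.mul_rpow hl.le (norm_nonneg _), mul_pow, ← Real.rpow_natCast (l ^ ((α - 1) / 2)) 2,
    ← Real.rpow_mul hl.le]
  have e2 : l ^ ((α - 1) / 2 * ((2 : ℕ) : ℝ)) * l ^ 4 = l ^ 3 * l ^ α := by
    rw [← Real.rpow_natCast l 4, ← Real.rpow_natCast l 3, ← Real.rpow_add hl, ← Real.rpow_add hl]
    congr 1; push_cast; ring
  calc ‖x‖ ^ α * (l ^ ((α - 1) / 2 * ((2 : ℕ) : ℝ)) * (l ^ 2 * (Δ φ) (l • ρ x)) ^ 2)
      = (l ^ ((α - 1) / 2 * ((2 : ℕ) : ℝ)) * l ^ 4) * ‖x‖ ^ α * (Δ φ) (l • ρ x) ^ 2 := by ring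
    _ = _ := by rw [e2]; ring

lemma massR_act (φ : E 3 → ℝ) (α q : ℝ) {l : ℝ} (hl : 0 < l) (ρ : E 3 ≃ₗᵢ[ℝ] E 3) :
    massR α q (act α l ρ φ) = massR α q φ := by
  unfold massR
  rw [← int_lin (fun x => ‖x‖ ^ (-beta 3 α q) * |φ x| ^ q) hl ρ, ← integral_const_mul]
  congr 1; ext x
  have hb : 0 < l ^ ((α - 1) / 2) := by positivity
  rw [act, abs_mul, abs_of_pos hb, Real.mul_rpow hb.le (abs_nonneg _), norm_smul,
    LinearIsometryEquiv.norm_map, Real.norm_of_nonneg hl.le, Real.mul_rpow hl.le (norm_nonneg _),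
    ← Real.rpow_mul hl.le]
  have e2 : l ^ ((α - 1) / 2 * q) = l ^ 3 * l ^ (-beta 3 α q) := by
    rw [← Real.rpow_natCast l 3, ← Real.rpow_add hl]
    congr 1; unfold beta; push_cast; ring
  rw [e2]; ring

/-- the first basis vector -/
noncomputable def e1 : E 3 := EuclideanSpace.basisFun (Fin 3) ℝ 0

lemma e1_norm : ‖e1‖ = 1 := by simp [e1]

lemma e1_ne : e1 ≠ 0 := by
  intro h; have := e1_norm; rw [h, norm_zero] at this; exact zero_ne_one this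

/-- Moving a point to `e1`. -/
theorem move {φ : E 3 → ℝ} (h : Test φ) (α q : ℝ) {a : E 3} (ha : a ≠ 0) :
    ∃ ψ : E 3 → ℝ, Test ψ ∧ energy α ψ = energy α φ ∧ massR α q ψ = massR α q φ ∧
      ψ e1 = ‖a‖ ^ ((α - 1) / 2) * φ a ∧ ((∀ x, φ (-x) = φ x) → ∀ x, ψ (-x) = ψ x) := by
  have hl : 0 < ‖a‖ := norm_pos_iff.2 ha
  have hw : ‖e1‖ = ‖(‖a‖⁻¹ • a : E 3)‖ := by
    rw [e1_norm, norm_smul, norm_inv, norm_norm, inv_mul_cancel₀ hl.ne']
  let ρ : E 3 ≃ₗᵢ[ℝ] E 3 := (Submodule.reflection (ℝ ∙ (e1 - ‖a‖⁻¹ • a))ᗮ)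
  have hρ : ρ e1 = ‖a‖⁻¹ • a := Submodule.reflection_sub hw
  refine ⟨act α ‖a‖ ρ φ, act_test h α hl ρ, energy_act h α hl ρ, massR_act φ α q hl ρ, ?_, ?_⟩
  · rw [act, hρ, smul_smul, mul_inv_cancel₀ hl.ne', one_smul]
  · intro he x
    rw [act, act, map_neg, smul_neg, he]

end Pool.Agent.W5h16.RC
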