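import Pool.Agent.W5h16.RC.Newton

/-!
# Evaluation at a point of `ℝ³ ∖ {0}` is bounded for the norm of `𝒩²(α)`, `1 < α < 3`
-/

set_option autoImplicit false

open MeasureTheory Set Filter Topology Metric
open scoped InnerProductSpace ContDiff Laplacian ENNReal
open Pool.Agent.Helper486.TP (newton newton_toReal newton_measurable)

namespace Pool.Agent.W5h16.RC

/-- the kernel `|y - a|^{-1} |y|^{-α/2}` -/
noncomputable def ker (α : ℝ) (a y : E 3) : ℝ := (newton a y).toReal * ‖y‖ ^ (-(α / 2))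

lemma newton_inv (a y : E 3) (h : y ≠ a) : (newton a y).toReal = ‖y - a‖⁻¹ := by
  rw [newton_toReal le_rfl a y h]
  norm_num [Real.rpow_neg_one]

lemma finrankE3 : Module.finrank ℝ (E 3) = 3 := by simp [E]

lemma meas_ker (α : ℝ) (a : E 3) : Measurable (ker α a) := by
  unfold ker
  exact (newton_measurable a).ennreal_toReal.mul (measurable_norm.pow_const _)

lemma intOn_rpow {t : ℝ} (ht : t < 3) (r : ℝ) :
    IntegrableOn (fun y : E 3 => ‖y‖ ^ (-t)) (ball 0 r) := by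
  refine integrableOn_ball_of_norm_le_rpow (μ := (volume : Measure (E 3))) (C := 1)
    (α := t) (by rw [finrankE3]; norm_num) (by rw [finrankE3]; exact_mod_cast ht) ?_ ?_
  · refine ae_of_all _ (fun x => ?_)
    rw [one_mul, Real.norm_of_nonneg (by positivity)]
  · exact (measurable_norm.pow_const _).aestronglyMeasurable

lemma intOn_rpow' {t : ℝ} (ht : t < 3) (a : E 3) (r : ℝ) :
    IntegrableOn (fun y : E 3 => ‖y - a‖ ^ (-t)) (ball a r) := by
  rw [← integrable_indicator_iff measurableSet_ball]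
  have h := (integrable_indicator_iff measurableSet_ball).2 (intOn_rpow ht r)
  have h2 := h.comp_sub_right a
  refine h2.congr (ae_of_all _ (fun y => ?_))
  by_cases hy : y ∈ ball a r
  · have hy' : y - a ∈ ball (0 : E 3) r := by simpa [dist_eq_norm] using hy
    simp only [indicator_of_mem hy, indicator_of_mem hy']
  · have hy' : y - a ∉ ball (0 : E 3) r := by simpa [dist_eq_norm] using hy
    simp only [indicator_of_notMem hy, indicator_of_notMem hy']

lemma ker_sq {α : ℝ} {a y : E 3} (hy : y ≠ 0) (ha : y ≠ a) :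
    ker α a y ^ 2 = ‖y - a‖ ^ (-(2 : ℝ)) * ‖y‖ ^ (-α) := by
  have h1 : 0 < ‖y - a‖ := norm_pos_iff.2 (sub_ne_zero.2 ha)
  have h2 : 0 < ‖y‖ := norm_pos_iff.2 hy
  unfold ker
  rw [newton_inv a y ha, mul_pow, ← Real.rpow_natCast (‖y‖ ^ _) 2, ← Real.rpow_mul h2.le,
    inv_pow, Real.rpow_neg h1.le]
  congr 1
  · norm_num
  · congr 1; push_cast; ring

theorem ker_sq_integrable {α : ℝ} (h1 : 1 < α) (h3 : α < 3) {a : E 3} (ha : a ≠ 0) :
    Integrable (fun y => ker α a y ^ 2) := by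
  set r := ‖a‖ / 2 with hr
  have har : 0 < ‖a‖ := norm_pos_iff.2 ha
  have hr0 : 0 < r := by positivity
  have i1 := ((integrable_indicator_iff measurableSet_ball).2 (intOn_rpow h3 r)).const_mul (r ^ (-(2:ℝ)))
  have i2 := ((integrable_indicator_iff measurableSet_ball).2
    (intOn_rpow' (show (2:ℝ) < 3 by norm_num) a r)).const_mul (r ^ (-α))
  have i3 : Integrable (fun y : E 3 => (1 + ‖y‖) ^ (-(α + 2))) :=
    integrable_one_add_norm (by rw [finrankE3]; push_cast; linarith)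
  have i4 := i3.const_mul (9 * (1 + 1 / r) ^ (α + 2))
  refine Integrable.mono' ((i1.add i2).add i4) ((meas_ker α a).pow_const 2).aestronglyMeasurable ?_
  have h0 : ∀ᵐ y : E 3, y ≠ 0 := by rw [ae_iff]; simp
  have h0' : ∀ᵐ y : E 3, y ≠ a := by rw [ae_iff]; simp
  filter_upwards [h0, h0'] with y hy hya
  rw [Real.norm_of_nonneg (sq_nonneg _), ker_sq hy hya]
  have p1 : 0 < ‖y - a‖ := norm_pos_iff.2 (sub_ne_zero.2 hya)
  have p2 : 0 < ‖y‖ := norm_pos_iff.2 hy
  simp only [Pi.add_apply]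
  have n1 : 0 ≤ r ^ (-(2:ℝ)) * (ball (0 : E 3) r).indicator (fun y => ‖y‖ ^ (-α)) y :=
    mul_nonneg (by positivity) (indicator_nonneg (fun _ _ => by positivity) _)
  have n2 : 0 ≤ r ^ (-α) * (ball a r).indicator (fun y => ‖y - a‖ ^ (-(2:ℝ))) y :=
    mul_nonneg (by positivity) (indicator_nonneg (fun _ _ => by positivity) _)
  have n3 : 0 ≤ 9 * (1 + 1 / r) ^ (α + 2) * (1 + ‖y‖) ^ (-(α + 2)) := by positivity
  by_cases c1 : ‖y‖ < r
  · have hm : y ∈ ball (0 : E 3) r := by simpa using c1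
    have hge : r ≤ ‖y - a‖ := by
      have := norm_sub_norm_le a y
      rw [norm_sub_rev] at this
      linarith
    have : ‖y - a‖ ^ (-(2:ℝ)) * ‖y‖ ^ (-α)
        ≤ r ^ (-(2:ℝ)) * (ball (0 : E 3) r).indicator (fun y => ‖y‖ ^ (-α)) y := by
      rw [indicator_of_mem hm]
      apply mul_le_mul_of_nonneg_right _ (by positivity)
      exact Real.rpow_le_rpow_of_nonpos hr0 hge (by norm_num)
    linarith
  · by_cases c2 : ‖y - a‖ < r
    · have hm : y ∈ ball a r := by rw [mem_ball, dist_eq_norm]; exact c2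
      have hge : r ≤ ‖y‖ := by push Not at c1; exact c1
      have : ‖y - a‖ ^ (-(2:ℝ)) * ‖y‖ ^ (-α)
          ≤ r ^ (-α) * (ball a r).indicator (fun y => ‖y - a‖ ^ (-(2:ℝ))) y := by
        rw [indicator_of_mem hm, mul_comm]
        apply mul_le_mul_of_nonneg_right _ (by positivity)
        exact Real.rpow_le_rpow_of_nonpos hr0 hge (by linarith)
      linarith
    · push Not at c1 c2
      have hy3 : ‖y‖ ≤ 3 * ‖y - a‖ := by
        have := norm_sub_norm_le y (y - a)
        rw [sub_sub_cancel] at this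
        linarith
      have e1 : ‖y - a‖ ^ (-(2:ℝ)) ≤ 9 * ‖y‖ ^ (-(2:ℝ)) := by
        have : (3 * ‖y - a‖) ^ (-(2:ℝ)) ≤ ‖y‖ ^ (-(2:ℝ)) :=
          Real.rpow_le_rpow_of_nonpos p2 hy3 (by norm_num)
        rw [Real.mul_rpow (by norm_num) p1.le] at this
        have h9 : (3:ℝ) ^ (-(2:ℝ)) = 1 / 9 := by
          rw [Real.rpow_neg (by norm_num)]; norm_num
        rw [h9] at this
        linarith
      have e2 : ‖y‖ ^ (-(α + 2)) ≤ (1 + 1 / r) ^ (α + 2) * (1 + ‖y‖) ^ (-(α + 2)) := by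
        have hle : (1 + ‖y‖) / (1 + 1 / r) ≤ ‖y‖ := by
          rw [div_le_iff₀ (by positivity)]
          have : 1 ≤ ‖y‖ * (1 / r) := by
            rw [mul_one_div, le_div_iff₀ hr0]; linarith
          nlinarith
        have : ‖y‖ ^ (-(α + 2)) ≤ ((1 + ‖y‖) / (1 + 1 / r)) ^ (-(α + 2)) :=
          Real.rpow_le_rpow_of_nonpos (by positivity) hle (by linarith)
        rw [Real.div_rpow (by positivity) (by positivity), Real.rpow_neg (x := 1 + 1 / r)
          (by positivity), div_inv_eq_mul, mul_comm] at this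
        exact this
      have e3 : ‖y‖ ^ (-(2:ℝ)) * ‖y‖ ^ (-α) = ‖y‖ ^ (-(α + 2)) := by
        rw [← Real.rpow_add p2]; congr 1; ring
      have : ‖y - a‖ ^ (-(2:ℝ)) * ‖y‖ ^ (-α) ≤ 9 * (1 + 1 / r) ^ (α + 2) * (1 + ‖y‖) ^ (-(α + 2)) := by
        calc ‖y - a‖ ^ (-(2:ℝ)) * ‖y‖ ^ (-α) ≤ 9 * ‖y‖ ^ (-(2:ℝ)) * ‖y‖ ^ (-α) :=
              mul_le_mul_of_nonneg_right e1 (by positivity)
          _ = 9 * ‖y‖ ^ (-(α + 2)) := by rw [mul_assoc, e3]
          _ ≤ 9 * ((1 + 1 / r) ^ (α + 2) * (1 + ‖y‖) ^ (-(α + 2))) := by linarith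
          _ = _ := by ring
      linarith

theorem memLp_ker {α : ℝ} (h1 : 1 < α) (h3 : α < 3) {a : E 3} (ha : a ≠ 0) :
    MemLp (ker α a) 2 volume :=
  (memLp_two_iff_integrable_sq (meas_ker α a).aestronglyMeasurable).2 (ker_sq_integrable h1 h3 ha)

end Pool.Agent.W5h16.RC
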