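import Pool.Agent.W5h16.RC.Bound

/-!
# The weighted `L^q` space and limits of test functions
-/

set_option autoImplicit false

open MeasureTheory Set Filter Topology Metric
open scoped InnerProductSpace ContDiff Laplacian ENNReal RealInnerProductSpace

namespace Pool.Agent.W5h16.RC

/-- the measure `|x|^{-β} dx` -/
noncomputable def nu (α q : ℝ) : Measure (E 3) :=
  volume.withDensity (fun x => ENNReal.ofReal (‖x‖ ^ (-beta 3 α q)))

lemma nu_ac (α q : ℝ) : nu α q ≪ volume := withDensity_absolutelyContinuous _ _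

lemma meas_w (α q : ℝ) : Measurable (fun x : E 3 => ENNReal.ofReal (‖x‖ ^ (-beta 3 α q))) :=
  (measurable_norm.pow_const _).ennreal_ofReal

lemma mass_eq_lint {α q : ℝ} {u : E 3 → ℝ} (hu : AEStronglyMeasurable u volume) :
    mass α q u = ∫⁻ x, ENNReal.ofReal (|u x| ^ q) ∂(nu α q) := by
  have hm : AEMeasurable (fun x => ENNReal.ofReal (|u x| ^ q)) volume :=
    (hu.norm.aemeasurable.pow_const q).ennreal_ofReal
  unfold nu
  rw [lintegral_withDensity_eq_lintegral_mul₀ (meas_w α q).aemeasurable hm]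
  unfold mass
  congr 1; ext x
  simp only [Pi.mul_apply]
  rw [← ENNReal.ofReal_mul (by positivity)]

lemma mass_eq_norm {α q : ℝ} (hq : 0 < q) {u : E 3 → ℝ} (hu : AEStronglyMeasurable u volume) :
    mass α q u = eLpNorm u (ENNReal.ofReal q) (nu α q) ^ q := by
  rw [mass_eq_lint hu, eLpNorm_eq_lintegral_rpow_enorm_toReal (by simpa using hq)
    ENNReal.ofReal_ne_top, ENNReal.toReal_ofReal hq.le, ← ENNReal.rpow_mul,
    one_div_mul_cancel hq.ne', ENNReal.rpow_one]
  congr 1; ext x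
  rw [Real.enorm_eq_ofReal_abs, ENNReal.ofReal_rpow_of_nonneg (abs_nonneg _) hq.le]

lemma norm_eq_mass {α q : ℝ} (hq : 0 < q) {u : E 3 → ℝ} (hu : AEStronglyMeasurable u volume) :
    eLpNorm u (ENNReal.ofReal q) (nu α q) = mass α q u ^ (1 / q) := by
  rw [mass_eq_norm hq hu, ← ENNReal.rpow_mul, mul_one_div_cancel hq.ne', ENNReal.rpow_one]

lemma mass_test {α q : ℝ} (hq : 0 < q) {φ : E 3 → ℝ} (h : Test φ) :
    mass α q φ = ENNReal.ofReal (massR α q φ) := by
  unfold mass massR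
  rw [ofReal_integral_eq_lintegral_ofReal (massR_int h α hq)]
  exact ae_of_all _ (fun x => by positivity)

lemma mass_congr {α q : ℝ} {u v : E 3 → ℝ} (h : u =ᵐ[volume] v) : mass α q u = mass α q v := by
  unfold mass
  apply lintegral_congr_ae
  filter_upwards [h] with x hx
  rw [hx]

lemma Test.aesm {φ : E 3 → ℝ} (h : Test φ) : AEStronglyMeasurable φ volume :=
  h.cont.aestronglyMeasurable

/-- the mass of a limit of test functions -/
lemma lim_mass {α q C B : ℝ} (hq : 1 ≤ q) {v : E 3 → ℝ} (hv : AEStronglyMeasurable v volume)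
    {φ : ℕ → E 3 → ℝ} (hφ : ∀ k, Test (φ k)) {b : ℕ → ℝ}
    (hle : ∀ k, massR α q (φ k) ≤ C * b k) (hb : Tendsto b atTop (𝓝 B))
    (hm : Tendsto (fun k => mass α q (fun x => φ k x - v x)) atTop (𝓝 0)) :
    mass α q v ≤ ENNReal.ofReal (C * B) := by
  have hq0 : 0 < q := by linarith
  have h1 : ∀ k, eLpNorm v (ENNReal.ofReal q) (nu α q)
      ≤ ENNReal.ofReal (C * b k) ^ (1 / q) + mass α q (fun x => φ k x - v x) ^ (1 / q) := by
    intro k
    have e : v = fun x => φ k x - (φ k x - v x) := by ext x; ring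
    have m1 : AEStronglyMeasurable (φ k) volume := (hφ k).aesm
    have m2 : AEStronglyMeasurable (fun x => φ k x - v x) volume := m1.sub hv
    calc eLpNorm v (ENNReal.ofReal q) (nu α q)
        = eLpNorm (fun x => φ k x - (φ k x - v x)) (ENNReal.ofReal q) (nu α q) := by rw [← e]
      _ ≤ eLpNorm (φ k) (ENNReal.ofReal q) (nu α q)
          + eLpNorm (fun x => φ k x - v x) (ENNReal.ofReal q) (nu α q) :=
          eLpNorm_sub_le (m1.mono_ac (nu_ac α q)) (m2.mono_ac (nu_ac α q))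
            (by rw [← ENNReal.ofReal_one]; exact ENNReal.ofReal_le_ofReal hq)
      _ ≤ _ := by
          rw [norm_eq_mass hq0 m1, norm_eq_mass hq0 m2, mass_test hq0 (hφ k)]
          gcongr
          exact hle k
  have h2 : Tendsto (fun k => ENNReal.ofReal (C * b k) ^ (1 / q)
      + mass α q (fun x => φ k x - v x) ^ (1 / q)) atTop
      (𝓝 (ENNReal.ofReal (C * B) ^ (1 / q) + 0 ^ (1 / q))) := by
    apply Tendsto.add
    · exact (ENNReal.continuous_rpow_const.tendsto _).comp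
        ((ENNReal.continuous_ofReal.tendsto _).comp (hb.const_mul C))
    · exact (ENNReal.continuous_rpow_const.tendsto _).comp hm
  rw [ENNReal.zero_rpow_of_pos (by positivity), add_zero] at h2
  have h3 := ge_of_tendsto' h2 h1
  rw [mass_eq_norm hq0 hv]
  calc eLpNorm v (ENNReal.ofReal q) (nu α q) ^ q ≤ (ENNReal.ofReal (C * B) ^ (1 / q)) ^ q :=
        ENNReal.rpow_le_rpow h3 hq0.le
    _ = ENNReal.ofReal (C * B) := by
        rw [← ENNReal.rpow_mul, one_div_mul_cancel hq0.ne', ENNReal.rpow_one]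

lemma ae_ne : ∀ᵐ y : E 3, y ≠ 0 := by rw [ae_iff]; simp

lemma energy_rpow {α q : ℝ} (hα : 0 < α) {φ : E 3 → ℝ} (h : Test φ) :
    energy α φ ^ (q / 2) = ‖TL α φ‖ ^ q := by
  rw [← TL_norm_sq hα h, ← Real.rpow_natCast, ← Real.rpow_mul (norm_nonneg _)]
  congr 1; push_cast; ring

/-- strong convergence gives pointwise convergence -/
lemma tendsto_of_TL {α : ℝ} (h1 : 1 < α) (h3 : α < 3) {φ : ℕ → E 3 → ℝ} (hφ : ∀ k, Test (φ k))
    {G : L2} (hG : ∀ w, Tendsto (fun k => ⟪TL α (φ k), w⟫) atTop (𝓝 ⟪G, w⟫)) {a : E 3}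
    (ha : a ≠ 0) : Tendsto (fun k => φ k a) atTop (𝓝 (uf α G a)) := by
  have := hG (KL α a)
  simp only [KL_inner h1 h3 ha (hφ _)] at this
  exact this

lemma uf_aesm {α : ℝ} (h1 : 1 < α) (h3 : α < 3) {φ : ℕ → E 3 → ℝ} (hφ : ∀ k, Test (φ k))
    {G : L2} (hG : ∀ w, Tendsto (fun k => ⟪TL α (φ k), w⟫) atTop (𝓝 ⟪G, w⟫)) :
    AEStronglyMeasurable (uf α G) volume := by
  apply aestronglyMeasurable_of_tendsto_ae atTop (fun k => (hφ k).aesm)
  filter_upwards [ae_ne] with x hx
  exact tendsto_of_TL h1 h3 hφ hG hx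

lemma strong_weak {φ : ℕ → L2} {G : L2} (h : Tendsto φ atTop (𝓝 G)) (w : L2) :
    Tendsto (fun k => ⟪φ k, w⟫) atTop (𝓝 ⟪G, w⟫) := h.inner tendsto_const_nhds

theorem mass_uf_le {α : ℝ} (h1 : 1 < α) (h3 : α < 3) {q : ℝ} (hq : 2 < q) {hα : 0 < α} {G : L2}
    (hG : G ∈ (VV α hα).topologicalClosure) :
    mass α q (uf α G) ≤ ENNReal.ofReal (MM α q * ‖G‖ ^ q) := by
  obtain ⟨φ, hφ, hlim⟩ := mem_closure_seq hG
  have hpt : ∀ᵐ x : E 3, Tendsto (fun k => ENNReal.ofReal (‖x‖ ^ (-beta 3 α q) * |φ k x| ^ q))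
      atTop (𝓝 (ENNReal.ofReal (‖x‖ ^ (-beta 3 α q) * |uf α G x| ^ q))) := by
    filter_upwards [ae_ne] with x hx
    apply (ENNReal.continuous_ofReal.tendsto _).comp
    apply Tendsto.const_mul
    exact (tendsto_of_TL h1 h3 hφ (strong_weak hlim) hx).abs.rpow_const (Or.inr (by linarith))
  have hF : mass α q (uf α G) ≤ liminf (fun k => mass α q (φ k)) atTop := by
    unfold mass
    calc ∫⁻ x, ENNReal.ofReal (‖x‖ ^ (-beta 3 α q) * |uf α G x| ^ q)
        = ∫⁻ x, liminf (fun k => ENNReal.ofReal (‖x‖ ^ (-beta 3 α q) * |φ k x| ^ q)) atTop := by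
          apply lintegral_congr_ae
          filter_upwards [hpt] with x hx
          exact hx.liminf_eq.symm
      _ ≤ _ := by
          apply lintegral_liminf_le
          intro k
          exact (massR_cont (hφ k) α (by linarith : 0 < q)).measurable.ennreal_ofReal
  refine hF.trans ?_
  have hb : Tendsto (fun k => ENNReal.ofReal (MM α q * ‖TL α (φ k)‖ ^ q)) atTop
      (𝓝 (ENNReal.ofReal (MM α q * ‖G‖ ^ q))) := by
    apply (ENNReal.continuous_ofReal.tendsto _).comp
    apply Tendsto.const_mul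
    exact hlim.norm.rpow_const (Or.inr (by linarith))
  rw [← hb.liminf_eq]
  refine liminf_le_liminf (Eventually.of_forall fun k => ?_)
  change mass α q (φ k) ≤ ENNReal.ofReal (MM α q * ‖TL α (φ k)‖ ^ q)
  rw [mass_test (by linarith) (hφ k), ← energy_rpow hα (hφ k)]
  exact ENNReal.ofReal_le_ofReal (le_MM h1 h3 hq (hφ k))

/-- integrals with respect to `nu` -/
lemma int_nu {α q : ℝ} {u : E 3 → ℝ} (hu : AEStronglyMeasurable u volume)
    (hm : mass α q u ≠ ⊤) : Integrable (fun x => |u x| ^ q) (nu α q) ∧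
      ∫ x, |u x| ^ q ∂(nu α q) = (mass α q u).toReal := by
  have hms : AEStronglyMeasurable (fun x => |u x| ^ q) (nu α q) :=
    ((hu.norm.aemeasurable.pow_const q).aestronglyMeasurable).mono_ac (nu_ac α q)
  have hnn : 0 ≤ᵐ[nu α q] fun x => |u x| ^ q := ae_of_all _ (fun x => by positivity)
  constructor
  · refine ⟨hms, ?_⟩
    rw [hasFiniteIntegral_iff_ofReal hnn, ← mass_eq_lint hu]
    exact lt_top_iff_ne_top.2 hm
  · rw [integral_eq_lintegral_of_nonneg_ae hnn hms, ← mass_eq_lint hu]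

end Pool.Agent.W5h16.RC
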