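import Pool.Agent.W5h16.RC.Rellich

/-!
# The Newtonian kernel as a fundamental solution, `C²` version
-/

set_option autoImplicit false

open MeasureTheory Set Filter Topology Metric
open scoped InnerProductSpace ContDiff Laplacian ENNReal
open Pool.Agent.Helper486.TP (newton newton_toReal newton_measurable newton_locInt fe fe_contDiff
  fe_lap int_parts kint subst_eq fe_le fe_tendsto)

namespace Pool.Agent.W5h16.RC

theorem green2 {n : ℕ} {ε : ℝ} (hε : 0 < ε) {φ : E n → ℝ} (hφ : ContDiff ℝ 2 φ)
    (hs : HasCompactSupport φ) (a : E n) :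
    ∫ y, fe ε a y * (Δ φ) y
      = ∫ y, -((n : ℝ) * (n - 2)) * (ε ^ 2 * (‖y - a‖ ^ 2 + ε ^ 2) ^ (-((n : ℝ) + 2) / 2)) * φ y := by
  have hD : ∀ {ψ : E n → ℝ}, ContDiff ℝ ∞ ψ → ∀ v : E n, ContDiff ℝ ∞ (fun z => fderiv ℝ ψ z v) := by
    intro ψ h v
    exact (h.fderiv_right (m := ∞) (by norm_cast)).clm_apply contDiff_const
  have hfe := fe_contDiff hε a (n := n)
  have hlap : ∀ y, (Δ φ) y = ∑ i, fderiv ℝ (fun z => fderiv ℝ φ z
      (EuclideanSpace.basisFun (Fin n) ℝ i)) y (EuclideanSpace.basisFun (Fin n) ℝ i) :=
    fun y => lap_eq2 hφ y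
  simp_rw [← fe_lap hε a, hlap, Finset.mul_sum, Finset.sum_mul]
  rw [integral_finsetSum, integral_finsetSum]
  · apply Finset.sum_congr rfl
    intro i _
    set v := EuclideanSpace.basisFun (Fin n) ℝ i
    rw [int_parts (fe ε a) (fun z => fderiv ℝ φ z v) (hfe.of_le (by norm_cast))
      (contDiff_dd1 hφ i) (hs.fderiv_apply (𝕜 := ℝ) v) v]
    rw [int_parts (fun z => fderiv ℝ (fe ε a) z v) φ ((hD hfe v).of_le (by norm_cast))
      (hφ.of_le (by norm_num)) hs v]
    ring
  · intro i _
    refine Continuous.integrable_of_hasCompactSupport ?_ (hs.mul_left)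
    exact (hD (hD hfe _) _).continuous.mul hφ.continuous
  · intro i _
    refine Continuous.integrable_of_hasCompactSupport ?_ (HasCompactSupport.mul_left ?_)
    · exact hfe.continuous.mul (contDiff_dd0 (contDiff_dd1 hφ i) i)
    · exact (hs.fderiv_apply (𝕜 := ℝ) _).fderiv_apply (𝕜 := ℝ) _

/-- The Newtonian kernel is a fundamental solution of the Laplacian, for `C²` test functions. -/
theorem newton_laplacian2 {n : ℕ} (hn : 3 ≤ n) :
    ∃ c : ℝ, 0 < c ∧ ∀ φ : E n → ℝ, ContDiff ℝ 2 φ → HasCompactSupport φ → ∀ a : E n,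
      ∫ y, (newton a y).toReal * (Δ φ) y = -c * φ a := by
  haveI : Nonempty (Fin n) := ⟨⟨0, by omega⟩⟩
  have hn' : (3 : ℝ) ≤ n := by exact_mod_cast hn
  set k : E n → ℝ := fun w => ((n : ℝ) * (n - 2)) * ((1 : ℝ) + ‖w‖ ^ 2) ^ (-((n : ℝ) + 2) / 2) with hk
  have hkint : Integrable k := kint.const_mul _
  have hcoef : 0 < (n : ℝ) * (n - 2) := by apply mul_pos <;> linarith
  have hkpos : ∀ w, 0 < k w := fun w => by
    have h1 : 0 < ((1 : ℝ) + ‖w‖ ^ 2) ^ (-((n : ℝ) + 2) / 2) := Real.rpow_pos_of_pos (by positivity) _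
    exact mul_pos hcoef h1
  refine ⟨∫ w, k w, ?_, ?_⟩
  · rw [integral_pos_iff_support_of_nonneg (fun w => (hkpos w).le) hkint]
    have : Function.support k = univ := by
      ext w; simp [(hkpos w).ne']
    rw [this]
    simp
  · intro φ hφ hs a
    set e : ℕ → ℝ := fun m => 1 / ((m : ℝ) + 1) with he
    have hepos : ∀ m, 0 < e m := fun m => by positivity
    have helim : Tendsto e atTop (𝓝 0) := tendsto_one_div_add_atTop_nhds_zero_nat
    have hLc := lapc hφ
    have hLs := lap_supp2 φ
    obtain ⟨M, hM⟩ : ∃ M, ∀ y, ‖(Δ φ) y‖ ≤ M := by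
      have hcs : HasCompactSupport (Δ φ) := HasCompactSupport.intro hs (fun y hy => hLs y hy)
      exact hcs.exists_bound_of_continuous hLc
    obtain ⟨M', hM'⟩ : ∃ M, ∀ y, ‖φ y‖ ≤ M := hs.exists_bound_of_continuous hφ.continuous
    have h0 : ∀ᵐ y : E n, y ≠ a := by
      rw [ae_iff]; simp
    -- left side
    have hL : Tendsto (fun m => ∫ y, fe (e m) a y * (Δ φ) y) atTop
        (𝓝 (∫ y, (newton a y).toReal * (Δ φ) y)) := by
      apply tendsto_integral_of_dominated_convergence (fun y => (newton a y).toReal * ‖(Δ φ) y‖)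
      · intro m
        exact ((fe_contDiff (hepos m) a).continuous.mul hLc).aestronglyMeasurable
      · have hK : IntegrableOn (fun y => (newton a y).toReal) (tsupport φ) := by
          obtain ⟨C, hC, hCa⟩ := newton_locInt hn (tsupport φ) hs
          apply integrable_toReal_of_lintegral_ne_top (newton_measurable a).aemeasurable
          exact ((hCa a).trans_lt (lt_top_iff_ne_top.2 hC)).ne
        have h1 : IntegrableOn (fun y => (newton a y).toReal * ‖(Δ φ) y‖) (tsupport φ) := by
          apply Integrable.mul_bdd (c := M) hK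
          · exact hLc.norm.aestronglyMeasurable
          · exact ae_of_all _ (fun y => by rw [norm_norm]; exact hM y)
        rw [← integrableOn_iff_integrable_of_support_subset (s := tsupport φ)]
        · exact h1
        · intro y hy
          by_contra h
          apply hy
          simp [hLs y h]
      · intro m
        filter_upwards [h0] with y hy
        rw [norm_mul]
        apply mul_le_mul_of_nonneg_right _ (norm_nonneg _)
        rw [Real.norm_of_nonneg]
        · exact fe_le hn a y hy
        · unfold fe; positivity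
      · filter_upwards [h0] with y hy
        exact (fe_tendsto hn a y hy e helim).mul_const _
    -- right side
    have hR : Tendsto (fun m => -∫ w : E n, k w * φ (a + e m • w)) atTop (𝓝 (-∫ w : E n, k w * φ a)) := by
      apply Tendsto.neg
      apply tendsto_integral_of_dominated_convergence (fun w => k w * M')
      · intro m
        apply AEStronglyMeasurable.mul hkint.1
        have : Continuous (fun w : E n => φ (a + e m • w)) := hφ.continuous.comp (by fun_prop)
        exact this.aestronglyMeasurable
      · exact hkint.mul_const _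
      · intro m
        refine ae_of_all _ (fun w => ?_)
        rw [norm_mul, Real.norm_of_nonneg (hkpos w).le]
        exact mul_le_mul_of_nonneg_left (hM' _) (hkpos w).le
      · refine ae_of_all _ (fun w => ?_)
        apply Tendsto.const_mul
        have h1 : Tendsto (fun m => a + e m • w) atTop (𝓝 (a + (0 : ℝ) • w)) :=
          tendsto_const_nhds.add (helim.smul_const w)
        rw [zero_smul, add_zero] at h1
        exact (hφ.continuous.tendsto a).comp h1
    have heq : ∀ m, ∫ y, fe (e m) a y * (Δ φ) y = -∫ w : E n, k w * φ (a + e m • w) := by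
      intro m
      rw [green2 (hepos m) hφ hs a, subst_eq (hepos m) φ a]
    have := tendsto_nhds_unique hL ((tendsto_congr heq).2 hR)
    rw [this, integral_mul_const]
    ring


end Pool.Agent.W5h16.RC
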