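import Pool.Agent.W5h16.RC.Calc

/-!
# The Rellich inequality `γ² ∫ |x|^{α-4} φ² ≤ ∫ |x|^α |Δφ|²`, `γ = (n + α - 4)(n - α)/4 ≥ 0`
-/

set_option autoImplicit false

open MeasureTheory Set Filter Topology Metric
open scoped InnerProductSpace ContDiff Laplacian ENNReal

namespace Pool.Agent.W5h16.RC

variable {n : ℕ}

noncomputable def intA (α : ℝ) (φ : E n → ℝ) : ℝ := ∫ x, pw (α / 2 - 2) x * φ x ^ 2
noncomputable def intG (α : ℝ) (φ : E n → ℝ) : ℝ := ∑ i, ∫ x, pw (α / 2 - 1) x * dd i φ x ^ 2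
noncomputable def intX (α : ℝ) (φ : E n → ℝ) : ℝ :=
  ∑ i, ∫ x, pw (α / 2 - 2) x * (x i * φ x * dd i φ x)
noncomputable def intL (α : ℝ) (φ : E n → ℝ) : ℝ := ∫ x, pw (α / 2 - 1) x * (φ x * (Δ φ) x)

lemma energy_eq (α : ℝ) (φ : E n → ℝ) : energy α φ = ∫ x, pw (α / 2) x * (Δ φ) x ^ 2 := by
  unfold energy
  congr 1; ext x
  rw [pw_eq]; congr 2; ring

lemma int_add3 {f g k : E n → ℝ} (hf : Integrable f) (hg : Integrable g) (hk : Integrable k) :
    (∫ x, f x) + (∫ x, g x) + (∫ x, k x) = ∫ x, (f x + g x + k x) := by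
  rw [integral_add (f := fun x => f x + g x) (hf.add hg) hk, integral_add hf hg]

lemma lapc {φ : E n → ℝ} (hφ : ContDiff ℝ 2 φ) : Continuous (fun x => (Δ φ) x) := lap_cont2 hφ

lemma Sup0.int {g : E n → ℝ} (h : Sup0 g) (hg : Continuous g) (t : ℝ) :
    Integrable (fun x => pw t x * g x) :=
  (h.pw_mul t).integrable (h.contDiff_pw_mul t (k := 0) (by
    rw [← contDiff_zero (𝕜 := ℝ)] at hg; exact hg)).continuous

lemma Test.cont {φ : E n → ℝ} (h : Test φ) : Continuous φ := h.smooth.continuous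

lemma Test.diff {φ : E n → ℝ} (h : Test φ) : Differentiable ℝ φ :=
  h.smooth.differentiable (by norm_num)

lemma cont_coord (i : Fin n) : Continuous (fun x : E n => x i) := by fun_prop

lemma dd_coord_mul {g : E n → ℝ} (hg : Differentiable ℝ g) (i : Fin n) (x : E n) :
    dd i (fun y => y i * g y) x = g x + x i * dd i g x := by
  have h2 : HasFDerivAt (fun z : E n => z i) (EuclideanSpace.proj i : E n →L[ℝ] ℝ) x :=
    (EuclideanSpace.proj i : E n →L[ℝ] ℝ).hasFDerivAt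
  rw [dd_mul h2.differentiableAt (hg x)]
  unfold dd
  rw [h2.fderiv]
  simp [eb]
  ring

lemma int_L {φ : E n → ℝ} (h : Test φ) (α : ℝ) :
    intL α φ = -(intG α φ + (α - 2) * intX α φ) := by
  have h1 : ∀ i, Continuous (dd i φ) := fun i => contDiff_dd0 (h.smooth.of_le (by norm_num)) i
  have h2 : ∀ i, Continuous (dd i (dd i φ)) := fun i => contDiff_dd0 (contDiff_dd1 h.smooth i) i
  have e1 : intL α φ = ∑ i, ∫ x, (pw (α / 2 - 1) x * φ x) * dd i (dd i φ) x := by
    unfold intL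
    rw [← integral_finsetSum]
    · congr 1; ext x
      rw [lap_eq2 h.smooth, ← Finset.mul_sum]; ring
    · intro i _
      have : Sup0 (fun x => φ x * dd i (dd i φ) x) := h.sup.mono (fun x hx => by rw [hx, zero_mul])
      have := this.int (h.cont.mul (h2 i)) (α / 2 - 1)
      simpa only [mul_assoc] using this
  have e2 : ∀ i, ∫ x, (pw (α / 2 - 1) x * φ x) * dd i (dd i φ) x
      = -((∫ x, pw (α / 2 - 1) x * dd i φ x ^ 2)
        + (α - 2) * ∫ x, pw (α / 2 - 2) x * (x i * φ x * dd i φ x)) := by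
    intro i
    have hb := ibp (contDiff_dd1 h.smooth i) ((h.sup.contDiff_pw_mul (α / 2 - 1) h.smooth).of_le
      (by norm_num) : ContDiff ℝ 1 _) (h.sup.pw_mul (α / 2 - 1)).cpt i
    have e3 : ∫ x, (pw (α / 2 - 1) x * φ x) * dd i (dd i φ) x
        = - ∫ x, dd i φ x * dd i (fun x => pw (α / 2 - 1) x * φ x) x := by
      rw [hb, neg_neg]; congr 1; ext x; ring
    rw [e3]
    congr 1
    rw [← integral_const_mul, ← integral_add]
    · congr 1; ext x
      rw [h.sup.dd_pw_mul (α / 2 - 1) h.diff i x, show α / 2 - 1 - 1 = α / 2 - 2 by ring]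
      ring
    · have : Sup0 (fun x => dd i φ x ^ 2) := (h.sup.dd i).mono (fun x hx => by rw [hx]; ring)
      exact this.int ((h1 i).pow 2) _
    · have : Sup0 (fun x : E n => x i * φ x * dd i φ x) :=
        h.sup.mono (fun x hx => by rw [hx]; ring)
      exact (this.int (((cont_coord i).mul h.cont).mul (h1 i)) _).const_mul _
  rw [e1]
  simp_rw [e2]
  rw [Finset.sum_neg_distrib, Finset.sum_add_distrib, ← Finset.mul_sum]
  rfl

lemma int_X {φ : E n → ℝ} (h : Test φ) (α : ℝ) :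
    2 * intX α φ = -((n + α - 4) * intA α φ) := by
  have h1 : ∀ i, Continuous (dd i φ) := fun i => contDiff_dd0 (h.smooth.of_le (by norm_num)) i
  have hs : ∀ i : Fin n, Sup0 (fun x : E n => x i * φ x) := fun i =>
    h.sup.mono (fun x hx => by rw [hx, mul_zero])
  have hd : ∀ i : Fin n, ContDiff ℝ 2 (fun x : E n => x i * φ x) := fun i =>
    (ContDiff.mul (by fun_prop) h.smooth)
  have i1 : Integrable (fun x => pw (α / 2 - 2) x * φ x ^ 2) :=
    (h.sup.mono (fun x hx => by rw [hx]; ring) : Sup0 (fun x => φ x ^ 2)).int (h.cont.pow 2) _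
  have i2 : ∀ i : Fin n, Integrable (fun x : E n => pw (α / 2 - 2) x * (x i * φ x * dd i φ x)) :=
    fun i => (h.sup.mono (fun x hx => by rw [hx]; ring) :
      Sup0 (fun x : E n => x i * φ x * dd i φ x)).int (((cont_coord i).mul h.cont).mul (h1 i)) _
  have i3 : ∀ i : Fin n, Integrable (fun x : E n => pw (α / 2 - 2 - 1) x * (x i ^ 2 * φ x ^ 2)) :=
    fun i => (h.sup.mono (fun x hx => by rw [hx]; ring) :
      Sup0 (fun x : E n => x i ^ 2 * φ x ^ 2)).int (((cont_coord i).pow 2).mul (h.cont.pow 2)) _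
  have e2 : ∀ i : Fin n, intA α φ + (∫ x, pw (α / 2 - 2) x * (x i * φ x * dd i φ x))
      + (α - 4) * (∫ x : E n, pw (α / 2 - 2 - 1) x * (x i ^ 2 * φ x ^ 2))
      = - ∫ x, pw (α / 2 - 2) x * (x i * φ x * dd i φ x) := by
    intro i
    have hb := ibp (h.smooth.of_le (by norm_num) : ContDiff ℝ 1 φ)
      (((hs i).contDiff_pw_mul (α / 2 - 2) (hd i)).of_le
      (by norm_num) : ContDiff ℝ 1 _) ((hs i).pw_mul (α / 2 - 2)).cpt i
    have e3 : ∫ x, dd i φ x * (pw (α / 2 - 2) x * (x i * φ x))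
        = ∫ x, pw (α / 2 - 2) x * (x i * φ x * dd i φ x) := by
      congr 1; ext x; ring
    rw [← e3, ← hb]
    unfold intA
    rw [e3, ← integral_const_mul, int_add3 i1 (i2 i) ((i3 i).const_mul _)]
    congr 1; ext x
    rw [(hs i).dd_pw_mul (α / 2 - 2) ((hd i).differentiable (by norm_num)) i x,
      dd_coord_mul h.diff]
    ring
  have e4 : ∑ i : Fin n, (∫ x : E n, pw (α / 2 - 2 - 1) x * (x i ^ 2 * φ x ^ 2)) = intA α φ := by
    unfold intA
    rw [← integral_finsetSum _ (fun i _ => i3 i)]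
    congr 1; ext x
    by_cases hx : x = 0
    · subst hx; rw [h.sup.at0]; simp
    · rw [← Finset.mul_sum, ← Finset.sum_mul]
      have h1 : ∑ i, x i ^ 2 = pw 1 x := by
        rw [pw_one, EuclideanSpace.norm_sq_eq]
        apply Finset.sum_congr rfl
        intro i _
        simp
      rw [h1, ← mul_assoc, ← pw_add hx]
      congr 2; ring
  have := Finset.sum_congr rfl (fun i (_ : i ∈ Finset.univ) => e2 i)
  rw [Finset.sum_add_distrib, Finset.sum_add_distrib, ← Finset.mul_sum, e4,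
    Finset.sum_neg_distrib] at this
  simp only [Finset.sum_const, Finset.card_univ, Fintype.card_fin, nsmul_eq_mul] at this
  change _ + intX α φ + _ = - intX α φ at this
  linarith

lemma int_G {φ : E n → ℝ} (h : Test φ) (α τ : ℝ) :
    0 ≤ intG α φ + 2 * τ * intX α φ + τ ^ 2 * intA α φ := by
  have h1 : ∀ i, Continuous (dd i φ) := fun i => contDiff_dd0 (h.smooth.of_le (by norm_num)) i
  have i1 : Integrable (fun x => pw (α / 2 - 2) x * φ x ^ 2) :=
    (h.sup.mono (fun x hx => by rw [hx]; ring) : Sup0 (fun x => φ x ^ 2)).int (h.cont.pow 2) _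
  have i2 : ∀ i : Fin n, Integrable (fun x : E n => pw (α / 2 - 2) x * (x i * φ x * dd i φ x)) :=
    fun i => (h.sup.mono (fun x hx => by rw [hx]; ring) :
      Sup0 (fun x : E n => x i * φ x * dd i φ x)).int (((cont_coord i).mul h.cont).mul (h1 i)) _
  have i3 : ∀ i : Fin n, Integrable (fun x : E n => pw (α / 2 - 1) x * dd i φ x ^ 2) :=
    fun i => ((h.sup.dd i).mono (fun x hx => by rw [hx]; ring) :
      Sup0 (fun x : E n => dd i φ x ^ 2)).int ((h1 i).pow 2) _
  unfold intG intX intA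
  rw [← integral_finsetSum _ (fun i _ => i3 i), ← integral_finsetSum _ (fun i _ => i2 i),
    ← integral_const_mul, ← integral_const_mul, int_add3 (integrable_finsetSum _ (fun i _ => i3 i))
    ((integrable_finsetSum _ (fun i _ => i2 i)).const_mul _) (i1.const_mul _)]
  apply integral_nonneg
  intro x
  by_cases hx : x = 0
  · subst hx
    have : ∀ i, dd i φ 0 = 0 := fun i => (h.sup.dd i).at0
    simp [this, h.sup.at0]
  · have hp : pw (α / 2 - 1) x = pw (α / 2 - 2) x * ‖x‖ ^ 2 := by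
      rw [← pw_one, ← pw_add hx]; congr 1; ring
    have hc : (∑ i, x i * dd i φ x) ^ 2 ≤ ‖x‖ ^ 2 * ∑ i, dd i φ x ^ 2 := by
      have := Finset.sum_mul_sq_le_sq_mul_sq Finset.univ (fun i => x i) (fun i => dd i φ x)
      rw [EuclideanSpace.norm_sq_eq]
      simpa using this
    have hw := pw_nonneg (α / 2 - 2) x
    change 0 ≤ ∑ i, pw (α / 2 - 1) x * dd i φ x ^ 2 + 2 * τ * ∑ i, pw (α / 2 - 2) x *
      (x i * φ x * dd i φ x) + τ ^ 2 * (pw (α / 2 - 2) x * φ x ^ 2)
    have e1 : ∑ i, pw (α / 2 - 2) x * (x i * φ x * dd i φ x)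
        = pw (α / 2 - 2) x * φ x * ∑ i, x i * dd i φ x := by
      rw [Finset.mul_sum]; apply Finset.sum_congr rfl; intro i _; ring
    rw [e1, hp, ← Finset.mul_sum]
    set S := ∑ i, x i * dd i φ x
    set Q := ∑ i, dd i φ x ^ 2
    have e2 : pw (α / 2 - 2) x * ‖x‖ ^ 2 * Q + 2 * τ * (pw (α / 2 - 2) x * φ x * S)
        + τ ^ 2 * (pw (α / 2 - 2) x * φ x ^ 2)
        = pw (α / 2 - 2) x * ((‖x‖ ^ 2 * Q - S ^ 2) + (S + τ * φ x) ^ 2) := by ring
    rw [e2]
    apply mul_nonneg hw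
    nlinarith [sq_nonneg (S + τ * φ x)]

/-- the constant of the Rellich inequality -/
noncomputable def gam (n : ℕ) (α : ℝ) : ℝ := (n + α - 4) * (n - α) / 4

theorem rellich {φ : E n → ℝ} (h : Test φ) (α : ℝ) (hγ : 0 ≤ gam n α) :
    gam n α ^ 2 * intA α φ ≤ energy α φ := by
  set γ := gam n α with hγd
  have iA : Integrable (fun x => pw (α / 2 - 2) x * φ x ^ 2) :=
    (h.sup.mono (fun x hx => by rw [hx]; ring) : Sup0 (fun x => φ x ^ 2)).int (h.cont.pow 2) _
  have iB : Integrable (fun x => pw (α / 2) x * (Δ φ) x ^ 2) :=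
    (h.lapSup.mono (fun x hx => by rw [hx]; ring) : Sup0 (fun x => (Δ φ) x ^ 2)).int
      ((lapc h.smooth).pow 2) _
  have iL : Integrable (fun x => pw (α / 2 - 1) x * (φ x * (Δ φ) x)) :=
    (h.sup.mono (fun x hx => by rw [hx]; ring) : Sup0 (fun x => φ x * (Δ φ) x)).int
      (Continuous.mul (f := φ) (g := fun x => (Δ φ) x) h.cont (lapc h.smooth)) _
  have hq : 0 ≤ γ ^ 2 * intA α φ + 2 * γ * intL α φ + energy α φ := by
    rw [energy_eq]
    unfold intA intL
    rw [← integral_const_mul, ← integral_const_mul, int_add3 (iA.const_mul _) (iL.const_mul _) iB]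
    apply integral_nonneg
    intro x
    change 0 ≤ γ ^ 2 * (pw (α / 2 - 2) x * φ x ^ 2) + 2 * γ * (pw (α / 2 - 1) x * (φ x * (Δ φ) x))
      + pw (α / 2) x * (Δ φ) x ^ 2
    by_cases hx : x = 0
    · subst hx; rw [h.sup.at0, h.lapSup.at0]; simp
    · have e1 : pw (α / 2 - 1) x = pw (α / 2 - 2) x * ‖x‖ ^ 2 := by
        rw [← pw_one, ← pw_add hx]; congr 1; ring
      have e2 : pw (α / 2) x = pw (α / 2 - 2) x * ‖x‖ ^ 2 * ‖x‖ ^ 2 := by
        rw [← pw_one, ← pw_add hx, ← pw_add hx]; congr 1; ring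
      rw [e1, e2]
      have e3 : γ ^ 2 * (pw (α / 2 - 2) x * φ x ^ 2) + 2 * γ * (pw (α / 2 - 2) x * ‖x‖ ^ 2 *
          (φ x * (Δ φ) x)) + pw (α / 2 - 2) x * ‖x‖ ^ 2 * ‖x‖ ^ 2 * (Δ φ) x ^ 2
          = pw (α / 2 - 2) x * (γ * φ x + ‖x‖ ^ 2 * (Δ φ) x) ^ 2 := by ring
      rw [e3]
      exact mul_nonneg (pw_nonneg _ _) (sq_nonneg _)
  have hL := int_L h α
  have hX := int_X h α
  have hG := int_G h α ((n + α - 4) / 2)
  have key : γ * intA α φ ≤ - intL α φ := by
    rw [hL, hγd, gam]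
    nlinarith
  nlinarith [mul_le_mul_of_nonneg_left key hγ]

end Pool.Agent.W5h16.RC
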