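import Pool.Agent.W5h16.RC.Final

/-!
# The symmetries of the extremals for large exponents nearly fix a direction
-/

set_option autoImplicit false

open MeasureTheory Set Filter Topology Metric
open scoped InnerProductSpace ContDiff Laplacian ENNReal RealInnerProductSpace

namespace Pool.Agent.W5h16.RC

lemma mass_add_le {α q : ℝ} (hq : 0 < q) {f g : E 3 → ℝ} (hf : AEStronglyMeasurable f volume) :
    mass α q (fun x => f x + g x) ≤ ENNReal.ofReal (2 ^ q) * (mass α q f + mass α q g) := by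
  unfold mass
  rw [← lintegral_add_left', ← lintegral_const_mul']
  · apply lintegral_mono
    intro x
    simp only
    rw [← ENNReal.ofReal_add (by positivity) (by positivity), ← ENNReal.ofReal_mul (by positivity)]
    apply ENNReal.ofReal_le_ofReal
    have h4 : |f x + g x| ≤ 2 * max |f x| |g x| := by
      have h5 := abs_add_le (f x) (g x)
      have h6 := le_max_left |f x| |g x|
      have h7 := le_max_right |f x| |g x|
      linarith
    have h8 := Real.rpow_le_rpow (abs_nonneg _) h4 hq.le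
    rw [Real.mul_rpow (by norm_num) (by positivity)] at h8
    have h10 : max |f x| |g x| ^ q ≤ |f x| ^ q + |g x| ^ q := by
      rcases max_choice |f x| |g x| with h9 | h9
      · rw [h9]; have : 0 ≤ |g x| ^ q := by positivity
        linarith
      · rw [h9]; have : 0 ≤ |f x| ^ q := by positivity
        linarith
    calc ‖x‖ ^ (-beta 3 α q) * |f x + g x| ^ q
        ≤ ‖x‖ ^ (-beta 3 α q) * (2 ^ q * (|f x| ^ q + |g x| ^ q)) := by
          apply mul_le_mul_of_nonneg_left _ (by positivity)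
          exact h8.trans (mul_le_mul_of_nonneg_left h10 (by positivity))
      _ = _ := by ring
  · exact ENNReal.ofReal_ne_top
  · exact ((measurable_norm.pow_const _).aemeasurable.mul
      (hf.norm.aemeasurable.pow_const q)).ennreal_ofReal

lemma uf_aesm' {α : ℝ} (h1 : 1 < α) (h3 : α < 3) {hα : 0 < α} {F : L2}
    (hF : F ∈ (VV α hα).topologicalClosure) : AEStronglyMeasurable (uf α F) volume := by
  obtain ⟨φ, hφ, hlim⟩ := mem_closure_seq hF
  exact uf_aesm h1 h3 hφ (strong_weak hlim)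

/-- Every element is represented by an element of the Hilbert space. -/
theorem Elt.rep {α : ℝ} (h1 : 1 < α) (h3 : α < 3) (hα : 0 < α) {q : ℝ} (hq : 2 < q)
    {v : E 3 → ℝ} {N : ℝ} (h : Elt α q v N) :
    ∃ F ∈ (VV α hα).topologicalClosure, ‖F‖ ^ 2 = N ∧ uf α F =ᵐ[volume] v := by
  obtain ⟨φ, hφ, hC, hN, hm⟩ := h.ex
  have hCau : CauchySeq (fun k => TL α (φ k)) := by
    rw [Metric.cauchySeq_iff]
    intro ε hε
    obtain ⟨K, hK⟩ := hC (ε ^ 2) (by positivity)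
    refine ⟨K, fun k hk l hl => ?_⟩
    have := hK k hk l hl
    rw [dist_eq_norm, ← TL_sub hα (hφ k) (hφ l), TL_norm hα ((hφ k).sub (hφ l))]
    exact (Real.sqrt_lt' hε).2 this
  obtain ⟨F, hF⟩ := cauchySeq_tendsto_of_complete hCau
  have hFc : F ∈ (VV α hα).topologicalClosure :=
    (VV α hα).isClosed_topologicalClosure.mem_of_tendsto hF
      (Eventually.of_forall fun k => (VV α hα).le_topologicalClosure (TL_mem hα (hφ k)))
  refine ⟨F, hFc, ?_, ?_⟩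
  · refine tendsto_nhds_unique ((hF.norm.pow 2).congr (fun k => ?_)) hN
    exact TL_norm_sq hα (hφ k)
  · have hum := uf_aesm' h1 h3 hFc
    have hq0 : 0 < q := by linarith
    have hz : mass α q (fun x => uf α F x - v x) = 0 := by
      have hb : ∀ k, mass α q (fun x => uf α F x - v x) ≤ ENNReal.ofReal (2 ^ q) *
          (ENNReal.ofReal (MM α q * ‖F - TL α (φ k)‖ ^ q) + mass α q (fun x => φ k x - v x)) := by
        intro k
        have e : (fun x => uf α F x - v x) = fun x => (uf α F x - φ k x) + (φ k x - v x) := by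
          ext x; ring
        have hsub : AEStronglyMeasurable (fun x => uf α F x - φ k x) volume := hum.sub (hφ k).aesm
        rw [e]
        refine (mass_add_le hq0 hsub).trans ?_
        gcongr
        have hmem : F - TL α (φ k) ∈ (VV α hα).topologicalClosure :=
          Submodule.sub_mem _ hFc ((VV α hα).le_topologicalClosure (TL_mem hα (hφ k)))
        have : mass α q (fun x => uf α F x - φ k x) = mass α q (uf α (F - TL α (φ k))) := by
          apply mass_congr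
          filter_upwards [ae_ne] with x hx
          rw [uf, uf, inner_sub_left, KL_inner h1 h3 hx (hφ k)]
        rw [this]
        exact mass_uf_le h1 h3 hq hmem
      have hlim : Tendsto (fun k => ENNReal.ofReal (2 ^ q) *
          (ENNReal.ofReal (MM α q * ‖F - TL α (φ k)‖ ^ q) + mass α q (fun x => φ k x - v x))) atTop
          (𝓝 (ENNReal.ofReal (2 ^ q) * (0 + 0))) := by
        apply ENNReal.Tendsto.const_mul _ (Or.inr ENNReal.ofReal_ne_top)
        apply Tendsto.add _ hm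
        have h14 : Tendsto (fun k => MM α q * ‖F - TL α (φ k)‖ ^ q) atTop
            (𝓝 (MM α q * (0:ℝ) ^ q)) := by
          apply Tendsto.const_mul
          have h15 : Tendsto (fun k => ‖F - TL α (φ k)‖) atTop (𝓝 0) := by
            have := tendsto_iff_norm_sub_tendsto_zero.1 hF
            refine this.congr (fun k => norm_sub_rev _ _)
          exact h15.rpow_const (Or.inr hq0.le)
        rw [Real.zero_rpow hq0.ne', mul_zero] at h14
        have := (ENNReal.continuous_ofReal.tendsto _).comp h14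
        rwa [ENNReal.ofReal_zero] at this
      rw [add_zero, mul_zero] at hlim
      exact le_antisymm (ge_of_tendsto' hlim hb) (zero_le)
    by_contra hne
    refine mass_ne_zero hq0 (hum.sub h.meas) (fun h0 => hne ?_) hz
    filter_upwards [h0] with x hx
    exact sub_eq_zero.1 hx

/-- the projected kernels -/
lemma proj_uf {α : ℝ} (h1 : 1 < α) (h3 : α < 3) {hα : 0 < α} {a : E 3} (ha : a ≠ 0) {h : L2}
    (hh : ∀ φ : E 3 → ℝ, Test φ → ⟪TL α φ, h⟫ = φ a) {F : L2}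
    (hF : F ∈ (VV α hα).topologicalClosure) : uf α F a = ⟪F, h⟫ := by
  obtain ⟨φ, hφ, hlim⟩ := mem_closure_seq hF
  have t1 := tendsto_of_TL h1 h3 hφ (strong_weak hlim) ha
  have t2 := strong_weak hlim h
  simp only [hh _ (hφ _)] at t2
  exact tendsto_nhds_unique t1 t2

lemma proj_norm {α : ℝ} (h1 : 1 < α) (h3 : α < 3) {hα : 0 < α} {a : E 3} (ha : a ≠ 0) {h he : L2}
    (hm : h ∈ (VV α hα).topologicalClosure)
    (hh : ∀ φ : E 3 → ℝ, Test φ → ⟪TL α φ, h⟫ = φ a)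
    (hhe : ∀ φ : E 3 → ℝ, Test φ → ⟪TL α φ, he⟫ = φ e1) :
    ‖a‖ ^ ((α - 1) / 2) * ‖h‖ ≤ ‖he‖ := by
  obtain ⟨φ, hφ, hlim⟩ := mem_closure_seq hm
  have hp : 0 < ‖a‖ := norm_pos_iff.2 ha
  have t1 : Tendsto (fun k => ‖a‖ ^ ((α - 1) / 2) * ⟪TL α (φ k), h⟫) atTop
      (𝓝 (‖a‖ ^ ((α - 1) / 2) * ⟪h, h⟫)) := (strong_weak hlim h).const_mul _
  have t2 : Tendsto (fun k => ‖TL α (φ k)‖ * ‖he‖) atTop (𝓝 (‖h‖ * ‖he‖)) :=
    hlim.norm.mul_const _
  have h4 := le_of_tendsto_of_tendsto' t1 t2 (fun k => by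
    rw [hh _ (hφ k)]
    obtain ⟨ψ, hψ, hE, -, hv, -⟩ := move (hφ k) α 3 ha
    rw [← hv, ← hhe ψ hψ]
    refine (real_inner_le_norm _ _).trans ?_
    rw [TL_norm hα hψ, hE, TL_norm hα (hφ k)])
  rw [real_inner_self_eq_norm_sq] at h4
  rcases (norm_nonneg h).eq_or_lt with h0 | h0
  · rw [← h0, mul_zero]; exact norm_nonneg _
  · have h5 : ‖h‖ * (‖a‖ ^ ((α - 1) / 2) * ‖h‖) ≤ ‖h‖ * ‖he‖ := by
      calc _ = ‖a‖ ^ ((α - 1) / 2) * ‖h‖ ^ 2 := by ring
        _ ≤ _ := h4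
    exact le_of_mul_le_mul_left h5 h0

/-- bound for the evaluation -/
lemma uf_bound {α : ℝ} (h1 : 1 < α) (h3 : α < 3) {hα : 0 < α} {a : E 3} (ha : a ≠ 0) {F : L2}
    (hF : F ∈ (VV α hα).topologicalClosure) :
    ‖a‖ ^ ((α - 1) / 2) * |uf α F a| ≤ ‖KL α e1‖ * ‖F‖ := by
  obtain ⟨φ, hφ, hlim⟩ := mem_closure_seq hF
  have t1 := ((tendsto_of_TL h1 h3 hφ (strong_weak hlim) ha).abs).const_mul (‖a‖ ^ ((α - 1) / 2))
  have t2 : Tendsto (fun k => ‖KL α e1‖ * ‖TL α (φ k)‖) atTop (𝓝 (‖KL α e1‖ * ‖F‖)) :=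
    hlim.norm.const_mul _
  refine le_of_tendsto_of_tendsto' t1 t2 (fun k => ?_)
  rw [TL_norm hα (hφ k)]
  exact evB_all h1 h3 (φ k) (hφ k) trivial a ha

/-- continuity away from the origin -/
lemma uf_cont {α : ℝ} (h1 : 1 < α) (h3 : α < 3) {hα : 0 < α} {F : L2}
    (hF : F ∈ (VV α hα).topologicalClosure) {a : E 3} (ha : a ≠ 0) : ContinuousAt (uf α F) a := by
  obtain ⟨φ, hφ, hlim⟩ := mem_closure_seq hF
  have hp : 0 < ‖a‖ := norm_pos_iff.2 ha
  apply continuousAt_of_locally_uniform_approx_of_continuousAt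
  intro u hu
  obtain ⟨ε, hε, hεu⟩ := Metric.mem_uniformity_dist.1 hu
  set c : ℝ := (‖a‖ / 2) ^ ((α - 1) / 2) with hc
  have hc0 : 0 < c := by positivity
  have ht : Tendsto (fun k => ‖KL α e1‖ * ‖F - TL α (φ k)‖) atTop (𝓝 (‖KL α e1‖ * 0)) := by
    apply Tendsto.const_mul
    have := tendsto_iff_norm_sub_tendsto_zero.1 hlim
    refine this.congr (fun k => norm_sub_rev _ _)
  rw [mul_zero] at ht
  obtain ⟨k, hk⟩ := (ht.eventually (gt_mem_nhds (show 0 < c * ε by positivity))).exists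
  refine ⟨ball a (‖a‖ / 2), ball_mem_nhds _ (by positivity), φ k, (hφ k).cont.continuousAt, ?_⟩
  intro y hy
  apply hεu
  have hy1 : ‖a‖ / 2 < ‖y‖ := by
    have h5 := norm_le_norm_add_norm_sub' a y
    rw [mem_ball, dist_eq_norm, norm_sub_rev] at hy
    linarith
  have hy0 : y ≠ 0 := by
    intro h; rw [h, norm_zero] at hy1; linarith
  have hmem : F - TL α (φ k) ∈ (VV α hα).topologicalClosure :=
    Submodule.sub_mem _ hF ((VV α hα).le_topologicalClosure (TL_mem hα (hφ k)))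
  have h6 := uf_bound h1 h3 hy0 hmem
  have h7 : uf α (F - TL α (φ k)) y = uf α F y - φ k y := by
    rw [uf, uf, inner_sub_left, KL_inner h1 h3 hy0 (hφ k)]
  rw [h7] at h6
  rw [Real.dist_eq]
  have h8 : c ≤ ‖y‖ ^ ((α - 1) / 2) :=
    Real.rpow_le_rpow (by positivity) hy1.le (by linarith)
  have h9 : c * |uf α F y - φ k y| < c * ε :=
    (mul_le_mul_of_nonneg_right h8 (abs_nonneg _)).trans_lt (h6.trans_lt hk)
  exact lt_of_mul_lt_mul_left h9 hc0.le

/-- invariance holds at every point -/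
lemma uf_inv {α : ℝ} (h1 : 1 < α) (h3 : α < 3) {hα : 0 < α} {F : L2}
    (hF : F ∈ (VV α hα).topologicalClosure) {v : E 3 → ℝ} (hv : uf α F =ᵐ[volume] v)
    (ρ : E 3 ≃ₗᵢ[ℝ] E 3) (hρ : ∀ᵐ x : E 3, v (ρ x) = v x) {a : E 3} (ha : a ≠ 0) :
    uf α F (ρ a) = uf α F a := by
  have h2 : ∀ᵐ x : E 3, uf α F (ρ x) = v (ρ x) :=
    ρ.measurePreserving.quasiMeasurePreserving.ae hv
  have h4 : (fun x => uf α F (ρ x)) =ᵐ[volume.restrict ({0}ᶜ : Set (E 3))] uf α F := by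
    apply ae_restrict_of_ae
    filter_upwards [hv, h2, hρ] with x e1 e2 e3
    rw [e2, e3, e1]
  have h5 := Measure.eqOn_open_of_ae_eq (μ := volume) h4 isOpen_compl_singleton (by
    intro x hx
    have hx' : ρ x ≠ 0 := by
      intro h; apply hx; exact (map_eq_zero_iff ρ ρ.injective).1 h
    exact ((uf_cont h1 h3 hF hx').comp ρ.continuous.continuousAt).continuousWithinAt) (by
    intro x hx
    exact (uf_cont h1 h3 hF hx).continuousWithinAt)
  exact h5 ha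

/-- a test function with value `1` at `e1`, vanishing away from `e1` -/
lemma exists_bump' {δ : ℝ} (hδ : 0 < δ) :
    ∃ ψ : E 3 → ℝ, Test ψ ∧ ψ e1 = 1 ∧ ∀ x, δ ≤ ‖x - e1‖ → ψ x = 0 := by
  have hm : 0 < min δ 1 := by positivity
  let b : ContDiffBump e1 := ⟨min δ 1 / 4, min δ 1 / 2, by positivity, by linarith⟩
  refine ⟨b, ⟨b.contDiff, b.hasCompactSupport, ?_⟩, ?_, ?_⟩
  · rw [b.tsupport_eq, mem_closedBall, dist_comm, dist_zero_right, e1_norm]
    change ¬ ((1:ℝ) ≤ min δ 1 / 2)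
    have := min_le_right δ 1
    linarith
  · exact b.one_of_mem_closedBall (mem_closedBall_self (by change 0 ≤ min δ 1 / 4; positivity))
  · intro x hx
    apply b.zero_of_le_dist
    change min δ 1 / 2 ≤ dist x e1
    rw [dist_eq_norm]
    have := min_le_left δ 1
    linarith

/-- the gap for functions taking the same value at two points of the same sphere -/
theorem pair_gap {α : ℝ} (h1 : 1 < α) (h3 : α < 3) (hα : 0 < α) {δ : ℝ} (hδ : 0 < δ) {he : L2}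
    (hhe : ∀ φ : E 3 → ℝ, Test φ → ⟪TL α φ, he⟫ = φ e1) :
    ∃ η : ℝ, 0 < η ∧ ∀ F ∈ (VV α hα).topologicalClosure, ∀ a b : E 3, a ≠ 0 → ‖b‖ = ‖a‖ →
      δ * ‖a‖ ≤ ‖b - a‖ → uf α F b = uf α F a →
      (‖a‖ ^ ((α - 1) / 2) * |uf α F a|) ^ 2 ≤ (‖he‖ ^ 2 - η) * ‖F‖ ^ 2 := by
  obtain ⟨ψ, hψ, hψ1, hψ0⟩ := exists_bump' hδ
  have hE : 0 < energy α ψ := by
    rcases (energy_nonneg α ψ).eq_or_lt with h0 | h0
    · exfalso
      have h4 : ψ e1 ≤ ‖TL α ψ‖ * ‖he‖ := by rw [← hhe ψ hψ]; exact real_inner_le_norm _ _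
      rw [TL_norm hα hψ, ← h0, Real.sqrt_zero, zero_mul, hψ1] at h4
      linarith
    · exact h0
  refine ⟨(4 * energy α ψ)⁻¹, by positivity, fun F hF a b ha hab hd hval => ?_⟩
  have hp : 0 < ‖a‖ := norm_pos_iff.2 ha
  have hb : b ≠ 0 := by
    intro h; rw [h, norm_zero] at hab; linarith
  obtain ⟨ha', ham, hah⟩ := exists_proj h1 h3 hα ha
  obtain ⟨hb', hbm, hbh⟩ := exists_proj h1 h3 hα hb
  set s := ‖a‖ ^ ((α - 1) / 2) with hs
  have hs0 : 0 < s := by positivity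
  have n1 : s * ‖ha'‖ ≤ ‖he‖ := proj_norm h1 h3 ha ham hah hhe
  have n2 : s * ‖hb'‖ ≤ ‖he‖ := by
    have := proj_norm h1 h3 hb hbm hbh hhe
    rwa [hab] at this
  -- the lower bound for the difference
  have hw : ‖(‖a‖⁻¹ • a : E 3)‖ = ‖e1‖ := by
    rw [e1_norm, norm_smul, norm_inv, norm_norm, inv_mul_cancel₀ hp.ne']
  let ρ : E 3 ≃ₗᵢ[ℝ] E 3 := (Submodule.reflection (ℝ ∙ (‖a‖⁻¹ • a - e1))ᗮ)
  have hρ : ρ (‖a‖⁻¹ • a) = e1 := Submodule.reflection_sub hw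
  have hl : 0 < ‖a‖⁻¹ := by positivity
  set ψ' := act α ‖a‖⁻¹ ρ ψ with hψ'
  have tψ' : Test ψ' := act_test hψ α hl ρ
  have eψ' : energy α ψ' = energy α ψ := energy_act hψ α hl ρ
  have v1 : ψ' a = s⁻¹ := by
    rw [hψ', act, ← map_smul, hρ, hψ1, mul_one, hs, Real.inv_rpow hp.le]
  have v2 : ψ' b = 0 := by
    rw [hψ', act]
    rw [hψ0, mul_zero]
    rw [← map_smul, ← hρ, ← map_sub, LinearIsometryEquiv.norm_map, ← smul_sub, norm_smul,
      Real.norm_of_nonneg hl.le, inv_mul_eq_div, le_div_iff₀ hp]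
    exact hd
  have h5 : s⁻¹ ≤ Real.sqrt (energy α ψ) * ‖ha' - hb'‖ := by
    have h6 : ⟪TL α ψ', ha' - hb'⟫ = s⁻¹ := by
      rw [inner_sub_right, hah _ tψ', hbh _ tψ', v1, v2, sub_zero]
    rw [← h6, ← eψ', ← TL_norm hα tψ']
    exact real_inner_le_norm _ _
  have h6 : 1 ≤ energy α ψ * (s * ‖ha' - hb'‖) ^ 2 := by
    have h7 : 1 ≤ Real.sqrt (energy α ψ) * (s * ‖ha' - hb'‖) := by
      have := mul_le_mul_of_nonneg_left h5 hs0.le
      rw [mul_inv_cancel₀ hs0.ne'] at this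
      linarith
    have h8 : (1:ℝ) ≤ (Real.sqrt (energy α ψ) * (s * ‖ha' - hb'‖)) ^ 2 := by nlinarith
    rwa [mul_pow, Real.sq_sqrt hE.le] at h8
  -- the bound
  have h7 : |uf α F a| ≤ ‖F‖ * (‖ha' + hb'‖ / 2) := by
    have e1 : uf α F a = ⟪F, (1/2 : ℝ) • (ha' + hb')⟫ := by
      rw [inner_smul_right, inner_add_right, ← proj_uf h1 h3 ha hah hF, ← proj_uf h1 h3 hb hbh hF,
        hval]; ring
    rw [e1]
    refine (abs_real_inner_le_norm _ _).trans (le_of_eq ?_)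
    rw [norm_smul, Real.norm_of_nonneg (by norm_num : (0:ℝ) ≤ 1/2)]; ring
  have hpar := parallelogram_law_with_norm ℝ ha' hb'
  have h8 : (s * |uf α F a|) ^ 2 ≤ (s * (‖F‖ * (‖ha' + hb'‖ / 2))) ^ 2 := by
    apply pow_le_pow_left₀ (by positivity)
    exact mul_le_mul_of_nonneg_left h7 hs0.le
  refine h8.trans ?_
  have h9 : (s * (‖F‖ * (‖ha' + hb'‖ / 2))) ^ 2
      = (((s * ‖ha'‖) ^ 2 + (s * ‖hb'‖) ^ 2) / 2 - (s * ‖ha' - hb'‖) ^ 2 / 4) * ‖F‖ ^ 2 := by
    have : ‖ha' + hb'‖ ^ 2 = 2 * (‖ha'‖ ^ 2 + ‖hb'‖ ^ 2) - ‖ha' - hb'‖ ^ 2 := by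
      nlinarith
    calc (s * (‖F‖ * (‖ha' + hb'‖ / 2))) ^ 2 = s ^ 2 * ‖F‖ ^ 2 * ‖ha' + hb'‖ ^ 2 / 4 := by ring
      _ = _ := by rw [this]; ring
  rw [h9]
  apply mul_le_mul_of_nonneg_right _ (by positivity)
  have m1 : (s * ‖ha'‖) ^ 2 ≤ ‖he‖ ^ 2 := pow_le_pow_left₀ (by positivity) n1 2
  have m2 : (s * ‖hb'‖) ^ 2 ≤ ‖he‖ ^ 2 := pow_le_pow_left₀ (by positivity) n2 2
  have m3 : (4 * energy α ψ)⁻¹ ≤ (s * ‖ha' - hb'‖) ^ 2 / 4 := by
    rw [inv_le_iff_one_le_mul₀ (by positivity)]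
    linarith
  linarith

/-- the bound for the mass by the supremum -/
lemma mass_le_of_sup {α : ℝ} (h1 : 1 < α) (h3 : α < 3) {hα : 0 < α} {q : ℝ} (hq : 2 < q) {F : L2}
    (hF : F ∈ (VV α hα).topologicalClosure) {Λ : ℝ} (hΛ0 : 0 ≤ Λ)
    (hΛ : ∀ a : E 3, a ≠ 0 → ‖a‖ ^ ((α - 1) / 2) * |uf α F a| ≤ Λ) :
    mass α q (uf α F) ≤ ENNReal.ofReal (Λ ^ (q - 2) * (RR α * ‖F‖ ^ 2)) := by
  obtain ⟨φ, hφ, hlim⟩ := mem_closure_seq hF
  have hpt : ∀ᵐ x : E 3, Tendsto (fun k => ENNReal.ofReal (pw (α / 2 - 2) x * (φ k x) ^ 2))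
      atTop (𝓝 (ENNReal.ofReal (pw (α / 2 - 2) x * (uf α F x) ^ 2))) := by
    filter_upwards [ae_ne] with x hx
    apply (ENNReal.continuous_ofReal.tendsto _).comp
    apply Tendsto.const_mul
    exact (tendsto_of_TL h1 h3 hφ (strong_weak hlim) hx).pow 2
  have hci : ∀ k, Continuous (fun x : E 3 => pw (α / 2 - 2) x * (φ k x) ^ 2) ∧
      Integrable (fun x : E 3 => pw (α / 2 - 2) x * (φ k x) ^ 2) := by
    intro k
    have hs : Sup0 (fun x => (φ k x) ^ 2) := (hφ k).sup.mono (fun x hx => by rw [hx]; ring)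
    have hc : Continuous (fun x : E 3 => (φ k x) ^ 2) := (hφ k).cont.pow 2
    refine ⟨?_, hs.int hc _⟩
    have hc' := hc
    rw [← contDiff_zero (𝕜 := ℝ)] at hc'
    exact (hs.contDiff_pw_mul _ hc').continuous
  have hF2 : ∫⁻ x : E 3, ENNReal.ofReal (pw (α / 2 - 2) x * (uf α F x) ^ 2)
      ≤ ENNReal.ofReal (RR α * ‖F‖ ^ 2) := by
    have hb : Tendsto (fun k => ENNReal.ofReal (RR α * ‖TL α (φ k)‖ ^ 2)) atTop
        (𝓝 (ENNReal.ofReal (RR α * ‖F‖ ^ 2))) := by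
      apply (ENNReal.continuous_ofReal.tendsto _).comp
      exact (hlim.norm.pow 2).const_mul _
    calc ∫⁻ x : E 3, ENNReal.ofReal (pw (α / 2 - 2) x * (uf α F x) ^ 2)
        = ∫⁻ x : E 3, liminf (fun k => ENNReal.ofReal (pw (α / 2 - 2) x * (φ k x) ^ 2)) atTop := by
          apply lintegral_congr_ae
          filter_upwards [hpt] with x hx
          exact hx.liminf_eq.symm
      _ ≤ liminf (fun k => ∫⁻ x : E 3, ENNReal.ofReal (pw (α / 2 - 2) x * (φ k x) ^ 2)) atTop := by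
          apply lintegral_liminf_le
          intro k
          exact (hci k).1.measurable.ennreal_ofReal
      _ ≤ ENNReal.ofReal (RR α * ‖F‖ ^ 2) := by
          rw [← hb.liminf_eq]
          refine liminf_le_liminf (Eventually.of_forall fun k => ?_)
          change ∫⁻ x : E 3, ENNReal.ofReal (pw (α / 2 - 2) x * (φ k x) ^ 2)
            ≤ ENNReal.ofReal (RR α * ‖TL α (φ k)‖ ^ 2)
          rw [← ofReal_integral_eq_lintegral_ofReal (hci k).2
            (ae_of_all _ (fun x => mul_nonneg (pw_nonneg _ _) (sq_nonneg _)))]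
          apply ENNReal.ofReal_le_ofReal
          rw [TL_norm_sq hα (hφ k)]
          exact intA_le h1 h3 (hφ k)
  calc mass α q (uf α F)
      ≤ ∫⁻ x : E 3, ENNReal.ofReal (Λ ^ (q - 2)) *
          ENNReal.ofReal (pw (α / 2 - 2) x * (uf α F x) ^ 2) := by
        unfold mass
        apply lintegral_mono_ae
        filter_upwards [ae_ne] with x hx
        rw [← ENNReal.ofReal_mul (by positivity)]
        exact ENNReal.ofReal_le_ofReal (interp hq hx (hΛ x hx))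
    _ = ENNReal.ofReal (Λ ^ (q - 2)) *
          ∫⁻ x : E 3, ENNReal.ofReal (pw (α / 2 - 2) x * (uf α F x) ^ 2) :=
        lintegral_const_mul' _ _ ENNReal.ofReal_ne_top
    _ ≤ ENNReal.ofReal (Λ ^ (q - 2)) * ENNReal.ofReal (RR α * ‖F‖ ^ 2) := by gcongr
    _ = _ := by rw [← ENNReal.ofReal_mul (by positivity)]

/-- For large exponents the symmetries of an extremal nearly fix a direction. -/
theorem near_fixed {α : ℝ} (h1 : 1 < α) (h3 : α < 3) {δ : ℝ} (hδ : 0 < δ) :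
    ∃ q0 : ℝ, 2 < q0 ∧ ∀ q : ℝ, q0 ≤ q → ∀ u : E 3 → ℝ, IsExtremal α q u →
      ∃ a : E 3, ‖a‖ = 1 ∧ ∀ ρ : E 3 ≃ₗᵢ[ℝ] E 3, (∀ᵐ x : E 3, u (ρ x) = u x) →
        ‖ρ a - a‖ < δ := by
  have hα : 0 < α := by linarith
  obtain ⟨he, hem, _hm, hhe, _, hlt⟩ := kernels h1 h3 hα
  obtain ⟨η, hη, hpair⟩ := pair_gap h1 h3 hα hδ hhe
  set K0 := ‖he‖ with hK0
  have hK0p : 0 < K0 := (norm_nonneg _).trans_lt hlt
  set k1 := Real.sqrt (K0 ^ 2 - η) with hk1
  have hk1n : 0 ≤ k1 := Real.sqrt_nonneg _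
  have hk1lt : k1 < K0 := by
    rw [hk1]; exact (Real.sqrt_lt' hK0p).2 (by linarith)
  set K1 := (2 * k1 + K0) / 3 with hK1d
  set K' := (k1 + 2 * K0) / 3 with hK'd
  have hK1 : 0 < K1 := by positivity
  have hlt' : K1 < K' := by rw [hK1d, hK'd]; linarith
  have hK'lt : K' < K0 := by rw [hK'd]; linarith
  -- a test function
  obtain ⟨ψ, hψ, hv⟩ : ∃ ψ : E 3 → ℝ, Test ψ ∧ K' * ‖TL α ψ‖ < ψ e1 := by
    obtain ⟨φ, hφ, hlim⟩ := mem_closure_seq hem
    have t1 : Tendsto (fun k => φ k e1) atTop (𝓝 (K0 ^ 2)) := by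
      have := strong_weak hlim he
      rw [real_inner_self_eq_norm_sq] at this
      refine this.congr (fun k => hhe _ (hφ k))
    have t2 : Tendsto (fun k => K' * ‖TL α (φ k)‖) atTop (𝓝 (K' * K0)) :=
      hlim.norm.const_mul _
    have h6 : K' * K0 < K0 ^ 2 := by nlinarith
    obtain ⟨k, hk⟩ := (t2.eventually_lt t1 h6).exists
    exact ⟨φ k, hφ k, hk⟩
  obtain ⟨v0, hv0, hlow⟩ := MM_lower h1 h3 (hK1.trans hlt') hψ hv
  have hR := RR_pos h1 h3
  have hb : 1 < K' / K1 := (one_lt_div hK1).2 hlt'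
  have ht := tendsto_rpow_atTop_of_base_gt_one _ hb
  obtain ⟨q0, hq0⟩ := eventually_atTop.1 (ht.eventually_gt_atTop (RR α / (v0 * K1 ^ (2:ℝ))))
  refine ⟨max q0 3, lt_max_of_lt_right (by norm_num), fun q hq u hu => ?_⟩
  have hq2 : 2 < q := by
    have := le_max_right q0 3; linarith
  have hbig := hq0 q ((le_max_left _ _).trans hq)
  obtain ⟨N, hN, hne, hS⟩ := hu
  obtain ⟨hm, hNp, -⟩ := hN.facts h1 h3 hq2 hne
  have hmass := extremal_mass h1 h3 hq2 hN hne hS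
  obtain ⟨F, hF, hFN, hFu⟩ := hN.rep h1 h3 hα hq2
  have hFp : 0 < ‖F‖ := by
    by_contra hcon
    have : ‖F‖ = 0 := le_antisymm (not_lt.1 hcon) (norm_nonneg _)
    rw [this] at hFN; norm_num at hFN; linarith
  -- a point where the function is large
  obtain ⟨a, ha, hav⟩ : ∃ a : E 3, a ≠ 0 ∧ K1 * ‖F‖ < ‖a‖ ^ ((α - 1) / 2) * |uf α F a| := by
    by_contra hcon
    push Not at hcon
    have h4 := ENNReal.toReal_le_of_le_ofReal (by positivity)
      (mass_le_of_sup h1 h3 hq2 hF (by positivity) hcon)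
    rw [mass_congr hFu, hmass, Real.mul_rpow hK1.le hFp.le] at h4
    have h5 : ‖F‖ ^ (q - 2) * ‖F‖ ^ 2 = N ^ (q / 2) := by
      rw [← hFN, ← Real.rpow_natCast ‖F‖ 2, ← Real.rpow_mul hFp.le, ← Real.rpow_add hFp]
      congr 1; push_cast; ring
    have h6 : K1 ^ (q - 2) * ‖F‖ ^ (q - 2) * (RR α * ‖F‖ ^ 2)
        = K1 ^ (q - 2) * RR α * N ^ (q / 2) := by rw [← h5]; ring
    rw [h6] at h4
    have h7 : MM α q ≤ K1 ^ (q - 2) * RR α := le_of_mul_le_mul_right h4 (by positivity)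
    have h8 := (hlow q hq2).trans h7
    rw [Real.div_rpow (hK1.trans hlt').le hK1.le, lt_div_iff₀ (by positivity)] at hbig
    have h9 : K1 ^ (q - 2) * K1 ^ (2:ℝ) = K1 ^ q := by
      rw [← Real.rpow_add hK1]; congr 1; ring
    have hKp : 0 < K1 ^ (2:ℝ) := by positivity
    have h10 : RR α / (v0 * K1 ^ (2:ℝ)) * K1 ^ q = K1 ^ (q - 2) * RR α / v0 := by
      rw [← h9]; field_simp
    rw [h10, div_lt_iff₀ hv0] at hbig
    linarith
  have hp : 0 < ‖a‖ := norm_pos_iff.2 ha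
  refine ⟨‖a‖⁻¹ • a, by rw [norm_smul, norm_inv, norm_norm, inv_mul_cancel₀ hp.ne'],
    fun ρ hρ => ?_⟩
  by_contra hcon
  push Not at hcon
  rw [map_smul, ← smul_sub, norm_smul, norm_inv, norm_norm, inv_mul_eq_div, le_div_iff₀ hp] at hcon
  have h5 := hpair F hF a (ρ a) ha (LinearIsometryEquiv.norm_map _ _) hcon
    (uf_inv h1 h3 hF hFu ρ hρ ha)
  have h6 : (K1 * ‖F‖) ^ 2 < (‖a‖ ^ ((α - 1) / 2) * |uf α F a|) ^ 2 :=
    pow_lt_pow_left₀ hav (by positivity) (by norm_num)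
  have h7 : (K0 ^ 2 - η) * ‖F‖ ^ 2 ≤ (K1 * ‖F‖) ^ 2 := by
    rw [mul_pow]
    apply mul_le_mul_of_nonneg_right _ (by positivity)
    have h8 : K0 ^ 2 - η ≤ k1 ^ 2 := by
      rw [hk1]
      rcases le_or_gt 0 (K0 ^ 2 - η) with h9 | h9
      · rw [Real.sq_sqrt h9]
      · exact h9.le.trans (sq_nonneg _)
    refine h8.trans ?_
    apply pow_le_pow_left₀ hk1n
    rw [hK1d]; linarith
  linarith

/-- The main theorem. -/
theorem main {α : ℝ} (h1 : 1 < α) (h3 : α < 3) :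
    (∀ q : ℝ, 2 < q → ∃ u : E 3 → ℝ, IsExtremal α q u) ∧
    ∀ δ : ℝ, 0 < δ → ∃ q0 : ℝ, 2 < q0 ∧ ∀ q : ℝ, q0 ≤ q → ∀ u : E 3 → ℝ, IsExtremal α q u →
      ¬ IsRadial u ∧ ∃ a : E 3, ‖a‖ = 1 ∧ ∀ ρ : E 3 ≃ₗᵢ[ℝ] E 3, (∀ᵐ x : E 3, u (ρ x) = u x) →
        ‖ρ a - a‖ < δ := by
  refine ⟨fun q hq => (SS_eq h1 h3 hq).2, fun δ hδ => ?_⟩
  obtain ⟨q0, hq0, h⟩ := near_fixed h1 h3 (show 0 < min δ 1 by positivity)
  refine ⟨q0, hq0, fun q hq u hu => ?_⟩
  obtain ⟨a, ha, har⟩ := h q hq u hu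
  refine ⟨fun hrad => ?_, a, ha, fun ρ hρ => (har ρ hρ).trans_le (min_le_left _ _)⟩
  have h5 := har (LinearIsometryEquiv.neg ℝ) (by simpa using radial_even hrad)
  have h6 : ‖(LinearIsometryEquiv.neg ℝ : E 3 ≃ₗᵢ[ℝ] E 3) a - a‖ = 2 := by
    have : (LinearIsometryEquiv.neg ℝ : E 3 ≃ₗᵢ[ℝ] E 3) a - a = (-2 : ℝ) • a := by
      simp only [LinearIsometryEquiv.coe_neg, Pi.neg_apply, id]
      rw [neg_smul, two_smul]; abel
    rw [this, norm_smul, ha]; norm_num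
  rw [h6] at h5
  have := min_le_right δ 1
  linarith

end Pool.Agent.W5h16.RC
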